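import Pool.Agent.Helper7.PD.FreeRes

set_option autoImplicit false
set_option linter.unusedSectionVars false

open CategoryTheory Limits

namespace Pool.Agent.Helper7.PD

variable {k G : Type} [CommRing k] [Group G]

section dual

variable {α β γ : Type} [Fintype β]

/-- The map induced on `Hom_G(-, A)` by a matrix. -/
noncomputable def dualD (A : Rep.{0} k G) (D : Matrix α β (MonoidAlgebra k G)) :
    (β → A) →ₗ[k] (α → A) :=
  LinearMap.pi fun a => ∑ b, (A.ρ.asAlgebraHom (D a b)) ∘ₗ (LinearMap.proj b : (β → A) →ₗ[k] A)

lemma dualD_apply (A : Rep.{0} k G) (D : Matrix α β (MonoidAlgebra k G)) (φ : β → A) (a : α) :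
    dualD A D φ a = ∑ b, A.ρ.asAlgebraHom (D a b) (φ b) := by
  simp [dualD]

lemma dualD_comp [Fintype α] (A : Rep.{0} k G) (D' : Matrix γ α (MonoidAlgebra k G))
    (D : Matrix α β (MonoidAlgebra k G)) : dualD A D' ∘ₗ dualD A D = dualD A (D' * D) := by
  refine LinearMap.ext fun φ => funext fun c => ?_
  simp only [LinearMap.comp_apply, dualD_apply, Matrix.mul_apply, map_sum, map_mul,
    LinearMap.sum_apply, Module.End.mul_apply]
  rw [Finset.sum_comm]

@[simp] lemma dualD_zero (A : Rep.{0} k G) : dualD A (0 : Matrix α β (MonoidAlgebra k G)) = 0 := by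
  refine LinearMap.ext fun φ => funext fun c => ?_
  simp [dualD_apply]

variable [Fintype α] [DecidableEq α] [DecidableEq β]

lemma hom_single (A : Rep.{0} k G) (f : Rep.free k G β ⟶ A) (b : β) (r : MonoidAlgebra k G) :
    f.hom (Finsupp.single b r) =
      A.ρ.asAlgebraHom r (f.hom (Finsupp.single b (MonoidAlgebra.single 1 1))) := by
  induction r using MonoidAlgebra.induction_linear with
  | zero => simp
  | add x y hx hy => rw [Finsupp.single_add, map_add, hx, hy, map_add, LinearMap.add_apply]
  | single g c =>
    rw [Representation.asAlgebraHom_single, LinearMap.smul_apply]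
    rw [← Rep.hom_comm_apply]
    rw [← map_smul]
    congr 1
    rw [Rep.of_ρ, Representation.free_single_single, Finsupp.smul_single,
      MonoidAlgebra.smul_single]
    simp

lemma sum_single_eq (v : β →₀ MonoidAlgebra k G) : v = ∑ b, Finsupp.single b (v b) := by
  rw [← Finsupp.univ_sum_single v]
  simp

lemma comp_apply_single (A : Rep.{0} k G) (D : Matrix α β (MonoidAlgebra k G))
    (f : Rep.free k G β ⟶ A) (a : α) :
    f.hom ((Rep.freeLift k G (Rep.free k G β) (rowsFinsupp D)).hom
      (Finsupp.single a (MonoidAlgebra.single 1 1))) =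
      ∑ b, A.ρ.asAlgebraHom (D a b) (f.hom (Finsupp.single b (MonoidAlgebra.single 1 1))) := by
  have h1 : ((Rep.freeLift k G (Rep.free k G β) (rowsFinsupp D)).hom
      (Finsupp.single a (MonoidAlgebra.single 1 1))) = rowsFinsupp D a := by
    change Representation.freeLift (Representation.free k G β) (rowsFinsupp D)
      (Finsupp.single a (MonoidAlgebra.single 1 1)) = _
    rw [Representation.freeLift_single_single]
    simp
  rw [h1, sum_single_eq (rowsFinsupp D a), map_sum]
  refine Finset.sum_congr rfl fun b _ => ?_
  rw [hom_single]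
  congr 2

end dual

namespace ResData

variable (R : ResData k G) (A : Rep.{0} k G)

/-- The explicit cochain complex computing `H^*(G; A)`. -/
noncomputable def cochain : CochainComplex (ModuleCat.{0} k) ℕ :=
  CochainComplex.of (fun i => ModuleCat.of k (R.α i → A))
    (fun i => ModuleCat.ofHom (dualD A (R.D i))) (fun i => by
      rw [← ModuleCat.ofHom_comp, dualD_comp, R.DD, dualD_zero]
      rfl)

lemma cochain_d (i : ℕ) : (R.cochain A).d i (i + 1) = ModuleCat.ofHom (dualD A (R.D i)) := by
  change CochainComplex.of.d (fun i => ModuleCat.of k (R.α i → A))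
    (fun i => ModuleCat.ofHom (dualD A (R.D i))) i (i + 1) = _
  exact CochainComplex.of_d _ _ _

/-- The isomorphism of complexes. -/
noncomputable def cochainIso : R.projRes.complex.linearYonedaObj k A ≅ R.cochain A :=
  HomologicalComplex.Hom.isoOfComponents
    (fun i => (Rep.freeLiftLEquiv k G (R.α i) A).toModuleIso) <| by
    rintro i j ⟨rfl⟩
    change (Rep.freeLiftLEquiv k G (R.α i) A).toModuleIso.hom ≫ (R.cochain A).d i (i + 1) = _
    rw [cochain_d]
    refine ModuleCat.hom_ext (LinearMap.ext fun f => funext fun a => ?_)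
    change Rep.free k G (R.α i) ⟶ A at f
    change dualD A (R.D i) (Rep.freeLiftLEquiv k G (R.α i) A f) a =
      (((R.complex.d (i + 1) i) ≫ f : Rep.free k G (R.α (i + 1)) ⟶ A).hom
        (Finsupp.single a (MonoidAlgebra.single 1 1)))
    rw [complex_d, dualD_apply]
    exact (comp_apply_single A (R.D i) f a).symm

/-- Group cohomology is computed by the explicit cochain complex. -/
noncomputable def cohIso (n : ℕ) : groupCohomology A n ≅ (R.cochain A).homology n :=
  groupCohomologyIso A n R.projRes ≪≫ HomologicalComplex.homologyMapIso (R.cochainIso A) n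

end ResData

end Pool.Agent.Helper7.PD
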