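import Mathlib

set_option autoImplicit false

open CategoryTheory

namespace Pool.Agent.Helper7.PD

/-- A group `G` is *of type FP over `k`* if the trivial `k[G]`-module `k` has a projective
resolution by finitely generated projective modules which is zero in all large degrees.
(`Rep k G` is the category of `k`-linear representations of `G`, i.e. of `k[G]`-modules, and
`ρ.asModule` is the `k[G]`-module corresponding to a representation `ρ`.) It is used for `k = ℤ`. -/
def IsTypeFP (k G : Type) [CommRing k] [Group G] : Prop :=
  ∃ P : ProjectiveResolution (Rep.trivial k G k),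
    (∀ i : ℕ, Module.Finite (MonoidAlgebra k G) (P.complex.X i).ρ.asModule) ∧
    ∃ N : ℕ, ∀ i : ℕ, N ≤ i → Limits.IsZero (P.complex.X i)

/-- A group `G` is a *Poincaré duality group of dimension `n`* (a `PD_n`-group) if it is of type
`FP`, `H^i(G; ℤ[G]) = 0` for `i ≠ n`, and `H^n(G; ℤ[G])` is isomorphic to `ℤ` as an abelian group.
Here `H^i(G; -)` is Mathlib's group cohomology and `Rep.leftRegular ℤ G` is the module `ℤ[G]` with
`G` acting by left multiplication. Orientability is not required. -/
def IsPDGroup (n : ℕ) (G : Type) [Group G] : Prop :=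
  IsTypeFP ℤ G ∧
  (∀ i : ℕ, i ≠ n → Subsingleton (groupCohomology (Rep.leftRegular ℤ G) i)) ∧
  Nonempty (groupCohomology (Rep.leftRegular ℤ G) n ≃+ ℤ)

/-- `K` is a nontrivial amalgamated free product `A *_H B` with `A ≠ H ≠ B`, where the amalgamated
subgroup is the given subgroup `H ≤ K`. The two factors are `X true` and `X false`, the
amalgamating monomorphisms are `φ true` and `φ false`, neither of them is onto, and the isomorphism
`e` from the amalgamated free product onto `K` is the identity on `H`. -/
def IsAmalgamOver {K : Type} [Group K] (H : Subgroup K) : Prop :=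
  ∃ (X : Bool → Type) (_ : ∀ b, Group (X b)) (φ : ∀ b, H →* X b),
    (∀ b, Function.Injective (φ b)) ∧ (∀ b, ¬ Function.Surjective (φ b)) ∧
    ∃ e : Monoid.PushoutI φ ≃* K, ∀ h : H, e (Monoid.PushoutI.base φ h) = h

/-- `K` is an HNN extension `A *_H` with base group `A` and associated subgroup `H ≤ K`: there are
a group `A`, subgroups `A₁, A₂ ≤ A`, an isomorphism `φ : A₁ ≃* A₂`, and an isomorphism `e` from the
HNN extension of `A` along `φ` onto `K` carrying `A₁` onto `H`. -/
def IsHNNOver {K : Type} [Group K] (H : Subgroup K) : Prop :=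
  ∃ (A : Type) (_ : Group A) (A₁ A₂ : Subgroup A) (φ : A₁ ≃* A₂)
    (e : HNNExtension A A₁ A₂ φ ≃* K),
    A₁.map (e.toMonoidHom.comp HNNExtension.of) = H

/-- `K` splits over its subgroup `H`. -/
def SplitsOver {K : Type} [Group K] (H : Subgroup K) : Prop :=
  IsAmalgamOver H ∨ IsHNNOver H

end Pool.Agent.Helper7.PD
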