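import Pool.Agent.Helper7.PD.Tower

set_option autoImplicit false
set_option linter.unusedSectionVars false

open CategoryTheory Limits

namespace Pool.Agent.Helper7.PD

/-- A coordinate system identifying `Γ` with the group of pairs `(n, i)` with multiplication
`(n, i) (n', i') = (n + δ ^ i n', i + i')`: this is `ℤ²` if `δ = 1` and the Klein bottle group if
`δ = -1`. -/
structure Coord2 (δ : ℤˣ) (Γ : Type) [Group Γ] where
  /-- coordinates -/
  e : Γ ≃ ℤ × ℤ
  e_mul : ∀ g h, e (g * h) = ((e g).1 + (((δ ^ (e g).2 : ℤˣ) : ℤ)) * (e h).1, (e g).2 + (e h).2)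

namespace Coord2

variable {δ : ℤˣ} {Γ : Type} [Group Γ] (C : Coord2 δ Γ)

lemma symm_mul (a b : ℤ × ℤ) : C.e.symm a * C.e.symm b =
    C.e.symm (a.1 + (((δ ^ a.2 : ℤˣ) : ℤ)) * b.1, a.2 + b.2) := by
  apply C.e.injective
  rw [C.e_mul]
  simp

lemma e_one : C.e 1 = (0, 0) := by
  have h := C.e_mul 1 1
  rw [mul_one] at h
  have h2 : (C.e 1).2 = 0 := by
    have := congrArg Prod.snd h
    simp at this
    exact this
  have h1 := congrArg Prod.fst h
  simp [h2] at h1
  exact Prod.ext h1 h2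

lemma symm_zero : C.e.symm (0, 0) = 1 := by
  rw [← C.e_one]; simp

/-- generator `y` -/
noncomputable def y : MonoidAlgebra ℤ Γ := MonoidAlgebra.single (C.e.symm (1, 0)) 1
/-- generator `t` -/
noncomputable def t : MonoidAlgebra ℤ Γ := MonoidAlgebra.single (C.e.symm (0, 1)) 1
/-- twisting element -/
noncomputable def d : MonoidAlgebra ℤ Γ :=
  MonoidAlgebra.single (C.e.symm ((((δ : ℤ) - 1) / 2), 0)) (δ : ℤ)
/-- `y - 1` -/
noncomputable def Y : MonoidAlgebra ℤ Γ := C.y - 1

lemma rel : C.Y * C.t = C.t * C.d * C.Y := by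
  simp only [Y, y, t, d, sub_mul, mul_sub, one_mul, mul_one, MonoidAlgebra.single_mul_single,
    C.symm_mul]
  rcases Int.units_eq_one_or δ with rfl | rfl
  · norm_num
  · norm_num
    abel

/-- `σ₁` for right multiplication -/
def sR1 : Γ ≃ ℤ × ℤ where
  toFun g := ((C.e g).2, ((δ ^ (C.e g).2 : ℤˣ) : ℤ) * (C.e g).1)
  invFun p := C.e.symm (((δ ^ p.1 : ℤˣ) : ℤ) * p.2, p.1)
  left_inv g := by
    apply C.e.injective
    simp only [Equiv.apply_symm_apply, ← mul_assoc]
    ext
    · simp [← Units.val_mul]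
    · simp
  right_inv p := by
    simp only [Equiv.apply_symm_apply, ← mul_assoc]
    ext
    · simp
    · simp [← Units.val_mul]

/-- `σ₁` for left multiplication -/
def sL1 : Γ ≃ ℤ × ℤ where
  toFun g := ((C.e g).2, (C.e g).1)
  invFun p := C.e.symm (p.2, p.1)
  left_inv g := by simp
  right_inv p := by simp

/-- last step -/
def s2 : ℤ ≃ Unit × ℤ where
  toFun i := ((), i)
  invFun p := p.2
  left_inv _ := rfl
  right_inv _ := rfl

/-- coefficients -/
noncomputable def p0 (Γ : Type) [Group Γ] : MonoidAlgebra ℤ Γ →ₗ[ℤ] (Γ →₀ ℤ) :=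
  (MonoidAlgebra.coeffLinearEquiv ℤ).toLinearMap

lemma p0_surj : Function.Surjective (p0 Γ) :=
  (MonoidAlgebra.coeffLinearEquiv (M := Γ) ℤ).surjective

lemma p0_inj : Function.Injective (p0 Γ) :=
  (MonoidAlgebra.coeffLinearEquiv (M := Γ) ℤ).injective

@[simp] lemma p0_single (g : Γ) (c : ℤ) :
    p0 Γ (MonoidAlgebra.single g c) = Finsupp.single g c := rfl

/-! ### right multiplication -/

lemma R1 (a : MonoidAlgebra ℤ Γ) : p0 Γ (a * C.Y) = opT C.sR1 1 (p0 Γ a) - p0 Γ a := by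
  rw [Y, mul_sub, mul_one, map_sub]
  congr 1
  induction a using MonoidAlgebra.induction_linear with
  | zero => simp
  | add x y hx hy => rw [add_mul, map_add, hx, hy, map_add, map_add]
  | single g c =>
    rw [y, MonoidAlgebra.single_mul_single, p0_single, p0_single, opT_single]
    simp only [mul_one, Units.val_one, one_mul]
    congr 1
    apply C.sR1.injective
    rw [σ_shiftPerm]
    simp only [sR1, Equiv.coe_fn_mk, C.e_mul, Equiv.apply_symm_apply]
    ext
    · simp
    · simp [mul_add, ← Units.val_mul]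

lemma L1 (a : MonoidAlgebra ℤ Γ) : p0 Γ (C.Y * a) = opT C.sL1 1 (p0 Γ a) - p0 Γ a := by
  rw [Y, sub_mul, one_mul, map_sub]
  congr 1
  induction a using MonoidAlgebra.induction_linear with
  | zero => simp
  | add x y hx hy => rw [mul_add, map_add, hx, hy, map_add, map_add]
  | single g c =>
    rw [y, MonoidAlgebra.single_mul_single, p0_single, p0_single, opT_single]
    simp only [Units.val_one, one_mul]
    congr 1
    apply C.sL1.injective
    rw [σ_shiftPerm]
    simp only [sL1, Equiv.coe_fn_mk, C.e_mul, Equiv.apply_symm_apply]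
    ext
    · simp
    · simp [add_comm]

/-- second stage, right multiplication -/
noncomputable def pR : MonoidAlgebra ℤ Γ →ₗ[ℤ] (ℤ →₀ ℤ) := opS C.sR1 1 ∘ₗ p0 Γ

/-- second stage, left multiplication -/
noncomputable def pL : MonoidAlgebra ℤ Γ →ₗ[ℤ] (ℤ →₀ ℤ) := opS C.sL1 1 ∘ₗ p0 Γ

lemma pR_surj : Function.Surjective C.pR := (opS_surj _ _).comp p0_surj
lemma pL_surj : Function.Surjective C.pL := (opS_surj _ _).comp p0_surj

lemma pR_single (g : Γ) (c : ℤ) :
    C.pR (MonoidAlgebra.single g c) = Finsupp.single (C.e g).2 c := by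
  simp [pR, opS_single, sR1]

lemma pL_single (g : Γ) (c : ℤ) :
    C.pL (MonoidAlgebra.single g c) = Finsupp.single (C.e g).2 c := by
  simp [pL, opS_single, sL1]

lemma R2 (a : MonoidAlgebra ℤ Γ) : C.pR (a * (C.t - 1)) = opT s2 1 (C.pR a) - C.pR a := by
  rw [mul_sub, mul_one, map_sub]
  congr 1
  induction a using MonoidAlgebra.induction_linear with
  | zero => simp
  | add x y hx hy => rw [add_mul, map_add, hx, hy, map_add, map_add]
  | single g c =>
    rw [t, MonoidAlgebra.single_mul_single, pR_single, pR_single, opT_single]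
    simp only [mul_one, Units.val_one, one_mul]
    congr 1
    apply s2.injective
    rw [σ_shiftPerm]
    simp [s2, C.e_mul]

lemma L2 (a : MonoidAlgebra ℤ Γ) :
    C.pL ((C.t * C.d - 1) * a) = opT s2 δ (C.pL a) - C.pL a := by
  rw [sub_mul, one_mul, map_sub]
  congr 1
  induction a using MonoidAlgebra.induction_linear with
  | zero => simp
  | add x y hx hy => rw [mul_add, map_add, hx, hy, map_add, map_add]
  | single g c =>
    rw [t, d, MonoidAlgebra.single_mul_single, MonoidAlgebra.single_mul_single, pL_single,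
      pL_single, opT_single]
    simp only [one_mul]
    congr 1
    apply s2.injective
    rw [σ_shiftPerm]
    simp [s2, C.e_mul, add_comm]

/-! ### consequences -/

lemma R1_inj (a : MonoidAlgebra ℤ Γ) (h : a * C.Y = 0) : a = 0 := by
  apply p0_inj
  rw [map_zero]
  exact step_inj C.sR1 1 (p0 Γ) (fun a => a * C.Y) C.R1 a (by simp only [h, map_zero])

lemma L1_inj (a : MonoidAlgebra ℤ Γ) (h : C.Y * a = 0) : a = 0 := by
  apply p0_inj
  rw [map_zero]
  exact step_inj C.sL1 1 (p0 Γ) (fun a => C.Y * a) C.L1 a (by simp only [h, map_zero])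

lemma pR_eq_zero (a : MonoidAlgebra ℤ Γ) : C.pR a = 0 ↔ ∃ b, b * C.Y = a := by
  constructor
  · intro h
    obtain ⟨b, hb⟩ := step_ker C.sR1 1 (p0 Γ) (fun a => a * C.Y) p0_surj C.R1 a h
    refine ⟨b, ?_⟩
    have := p0_inj (hb.trans (map_zero _).symm)
    exact (sub_eq_zero.1 this).symm
  · rintro ⟨b, rfl⟩
    exact step_zero C.sR1 1 (p0 Γ) (fun a => a * C.Y) C.R1 b

lemma pL_eq_zero (a : MonoidAlgebra ℤ Γ) : C.pL a = 0 ↔ ∃ b, C.Y * b = a := by
  constructor
  · intro h
    obtain ⟨b, hb⟩ := step_ker C.sL1 1 (p0 Γ) (fun a => C.Y * a) p0_surj C.L1 a h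
    refine ⟨b, ?_⟩
    have := p0_inj (hb.trans (map_zero _).symm)
    exact (sub_eq_zero.1 this).symm
  · rintro ⟨b, rfl⟩
    exact step_zero C.sL1 1 (p0 Γ) (fun a => C.Y * a) C.L1 b

lemma R2_inj (a : MonoidAlgebra ℤ Γ) (h : ∃ b, b * C.Y = a * (C.t - 1)) : ∃ b, b * C.Y = a := by
  rw [← C.pR_eq_zero] at h ⊢
  exact step_inj s2 1 C.pR (fun a => a * (C.t - 1)) C.R2 a h

lemma L2_inj (a : MonoidAlgebra ℤ Γ) (h : ∃ b, C.Y * b = (C.t * C.d - 1) * a) :
    ∃ b, C.Y * b = a := by
  rw [← C.pL_eq_zero] at h ⊢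
  exact step_inj s2 δ C.pL (fun a => (C.t * C.d - 1) * a) C.L2 a h

lemma R3 (a : MonoidAlgebra ℤ Γ) (h : opS s2 1 (C.pR a) = 0) :
    ∃ b c, a = b * C.Y + c * (C.t - 1) := by
  obtain ⟨c, hc⟩ := step_ker s2 1 C.pR (fun a => a * (C.t - 1)) C.pR_surj C.R2 a h
  rw [C.pR_eq_zero] at hc
  obtain ⟨b, hb⟩ := hc
  exact ⟨b, c, by rw [hb]; abel⟩

lemma L3 (a : MonoidAlgebra ℤ Γ) : opS s2 δ (C.pL a) = 0 ↔
    ∃ b c, a = C.Y * b + (C.t * C.d - 1) * c := by
  constructor
  · intro h
    obtain ⟨c, hc⟩ := step_ker s2 δ C.pL (fun a => (C.t * C.d - 1) * a) C.pL_surj C.L2 a h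
    rw [C.pL_eq_zero] at hc
    obtain ⟨b, hb⟩ := hc
    exact ⟨b, c, by rw [hb]; abel⟩
  · rintro ⟨b, c, rfl⟩
    rw [map_add, (C.pL_eq_zero _).2 ⟨b, rfl⟩, zero_add]
    exact step_zero s2 δ C.pL (fun a => (C.t * C.d - 1) * a) C.L2 c

lemma aug_eq (a : MonoidAlgebra ℤ Γ) : opS s2 1 (C.pR a) = Finsupp.single () (aug ℤ Γ a) := by
  induction a using MonoidAlgebra.induction_linear with
  | zero => simp
  | add x y hx hy => rw [map_add, map_add, hx, hy, map_add, Finsupp.single_add]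
  | single g c => rw [pR_single, opS_single]; simp [s2]

lemma exists_of_aug (a : MonoidAlgebra ℤ Γ) (h : aug ℤ Γ a = 0) :
    ∃ b c, a = b * C.Y + c * (C.t - 1) := by
  apply C.R3
  rw [aug_eq, h, Finsupp.single_zero]

end Coord2

end Pool.Agent.Helper7.PD
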