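import Pool.Agent.Helper7.PD.Dim2

set_option autoImplicit false
set_option linter.unusedSectionVars false

open CategoryTheory Limits

namespace Pool.Agent.Helper7.PD

namespace Coord2

variable {δ : ℤˣ} {Γ : Type} [Group Γ] (C : Coord2 δ Γ)

/-- ranks of the free modules in the resolution -/
def rk : ℕ → ℕ
  | 0 => 1
  | 1 => 2
  | 2 => 1
  | _ + 3 => 0

/-- the differentials -/
noncomputable def Dm : ∀ i, Matrix (Fin (rk (i + 1))) (Fin (rk i)) (MonoidAlgebra ℤ Γ)
  | 0 => (!![C.Y; C.t - 1] : Matrix (Fin 2) (Fin 1) (MonoidAlgebra ℤ Γ))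
  | 1 => (!![-(C.t * C.d - 1), C.Y] : Matrix (Fin 1) (Fin 2) (MonoidAlgebra ℤ Γ))
  | 2 => (0 : Matrix (Fin 0) (Fin 1) (MonoidAlgebra ℤ Γ))
  | _ + 3 => (0 : Matrix (Fin 0) (Fin 0) (MonoidAlgebra ℤ Γ))

lemma rel' : -(C.t * C.d - 1) * C.Y + C.Y * (C.t - 1) = 0 := by
  rw [mul_sub C.Y, C.rel]
  noncomm_ring

lemma aug_Y : aug ℤ Γ C.Y = 0 := by
  simp [Y, y]

lemma aug_t : aug ℤ Γ (C.t - 1) = 0 := by
  simp [t]

/-- The resolution. -/
noncomputable def resData : ResData ℤ Γ where
  α i := Fin (rk i)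
  D := C.Dm
  e := fun _ => 1
  DD i := by
    match i with
    | 0 =>
      change (!![-(C.t * C.d - 1), C.Y] : Matrix (Fin 1) (Fin 2) (MonoidAlgebra ℤ Γ)) *
        (!![C.Y; C.t - 1] : Matrix (Fin 2) (Fin 1) (MonoidAlgebra ℤ Γ)) = 0
      ext1 a b
      fin_cases a; fin_cases b
      have := C.rel'
      simp [Matrix.mul_apply, Fin.sum_univ_two] at this ⊢
      exact this
    | 1 => exact funext fun a => Fin.elim0 (show Fin 0 from a)
    | 2 => exact funext fun a => Fin.elim0 (show Fin 0 from a)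
    | n + 3 => exact funext fun a => Fin.elim0 (show Fin 0 from a)
  De a := by
    change Fin 2 at a
    change ∑ b : Fin 1, aug ℤ Γ ((!![C.Y; C.t - 1] : Matrix (Fin 2) (Fin 1) _) a b) * 1 = 0
    fin_cases a
    · simpa using C.aug_Y
    · simpa using C.aug_t
  exact i v h := by
    match i with
    | 0 =>
      change Fin 2 → MonoidAlgebra ℤ Γ at v
      change Matrix.vecMul v (!![C.Y; C.t - 1] : Matrix (Fin 2) (Fin 1) _) = 0 at h
      change ∃ w : Fin 1 → MonoidAlgebra ℤ Γ,
        Matrix.vecMul w (!![-(C.t * C.d - 1), C.Y] : Matrix (Fin 1) (Fin 2) _) = v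
      have h0 : v 0 * C.Y + v 1 * (C.t - 1) = 0 := by
        have := congrFun h 0
        simpa [Matrix.vecMul, dotProduct, Fin.sum_univ_two] using this
      obtain ⟨b, hb⟩ := C.R2_inj (v 1) ⟨-(v 0), by
        rw [neg_mul]; exact neg_eq_of_add_eq_zero_right h0⟩
      refine ⟨fun _ => b, ?_⟩
      have h1 : v 0 + b * (C.t * C.d - 1) = 0 := by
        apply C.R1_inj
        rw [add_mul, ← h0, ← hb]
        have := C.rel'
        have e : b * (C.t * C.d - 1) * C.Y = b * (C.Y * (C.t - 1)) := by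
          rw [mul_assoc]
          congr 1
          have h3 : C.Y * (C.t - 1) = - (-(C.t * C.d - 1) * C.Y) := by
            rw [eq_neg_iff_add_eq_zero, add_comm]; exact this
          rw [h3]; noncomm_ring
        rw [e, mul_assoc]
      funext j
      fin_cases j
      · have h4 : v 0 = -(b * (C.t * C.d - 1)) := eq_neg_of_add_eq_zero_left h1
        simp only [Matrix.vecMul, dotProduct, Finset.univ_unique, Finset.sum_singleton]
        refine Eq.trans ?_ h4.symm
        simp
        rw [← mul_neg, neg_sub]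
      · simpa [Matrix.vecMul, dotProduct] using hb
    | 1 =>
      change Fin 1 → MonoidAlgebra ℤ Γ at v
      change Matrix.vecMul v (!![-(C.t * C.d - 1), C.Y] : Matrix (Fin 1) (Fin 2) _) = 0 at h
      refine ⟨0, ?_⟩
      rw [Matrix.zero_vecMul]
      funext j
      fin_cases j
      symm
      change v 0 = 0
      apply C.R1_inj
      have := congrFun h 1
      simpa [Matrix.vecMul, dotProduct] using this
    | 2 => exact ⟨0, funext fun j => Fin.elim0 (show Fin 0 from j)⟩
    | n + 3 => exact ⟨0, funext fun j => Fin.elim0 (show Fin 0 from j)⟩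
  exact0 v h := by
    change Fin 1 → MonoidAlgebra ℤ Γ at v
    change ∑ b : Fin 1, aug ℤ Γ (v b) * 1 = 0 at h
    obtain ⟨b, c, hbc⟩ := C.exists_of_aug (v 0) (by simpa using h)
    refine ⟨(![b, c] : Fin 2 → MonoidAlgebra ℤ Γ), ?_⟩
    change Matrix.vecMul ![b, c] (!![C.Y; C.t - 1] : Matrix (Fin 2) (Fin 1) _) = v
    funext j
    fin_cases j
    simp [Matrix.vecMul, dotProduct, Fin.sum_univ_two, hbc]
  surj := by
    refine ⟨(fun _ => 1 : Fin 1 → MonoidAlgebra ℤ Γ), ?_⟩
    change ∑ b : Fin 1, aug ℤ Γ 1 * 1 = 1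
    simp

include C in
theorem isPDGroup : IsPDGroup 2 Γ := by
  refine isPDGroup_of_resData C.resData 1 ?_ ?_ ?_
    ((Finsupp.lapply ()) ∘ₗ opS s2 δ ∘ₗ C.pL ∘ₗ
      (LinearMap.proj (0 : Fin 1) : (Fin 1 → MonoidAlgebra ℤ Γ) →ₗ[ℤ] MonoidAlgebra ℤ Γ)) ?_ ?_
  · intro i hi
    match i with
    | 0 => omega
    | 1 => omega
    | 2 => omega
    | n + 3 => exact ⟨fun a => Fin.elim0 (show Fin 0 from a)⟩
  · intro v hv
    change Fin 1 → MonoidAlgebra ℤ Γ at v
    change Matrix.mulVec (!![C.Y; C.t - 1] : Matrix (Fin 2) (Fin 1) _) v = 0 at hv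
    funext j
    fin_cases j
    change v 0 = 0
    apply C.L1_inj
    have := congrFun hv 0
    simpa [Matrix.mulVec, dotProduct] using this
  · intro i hi v hv
    match i with
    | 0 =>
      change Fin 2 → MonoidAlgebra ℤ Γ at v
      change Matrix.mulVec (!![-(C.t * C.d - 1), C.Y] : Matrix (Fin 1) (Fin 2) _) v = 0 at hv
      change ∃ w : Fin 1 → MonoidAlgebra ℤ Γ,
        Matrix.mulVec (!![C.Y; C.t - 1] : Matrix (Fin 2) (Fin 1) _) w = v
      have h0 : C.Y * v 1 = (C.t * C.d - 1) * v 0 := by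
        have := congrFun hv 0
        simp only [Matrix.mulVec, dotProduct, Fin.sum_univ_two] at this
        have h2 : -(C.t * C.d - 1) * v 0 + C.Y * v 1 = 0 := by simpa using this
        rw [neg_mul, neg_add_eq_zero] at h2
        exact h2.symm
      obtain ⟨w, hw⟩ := C.L2_inj _ ⟨_, h0⟩
      refine ⟨fun _ => w, ?_⟩
      have h1 : v 1 = (C.t - 1) * w := by
        have : C.Y * (v 1 - (C.t - 1) * w) = 0 := by
          rw [mul_sub, h0, ← hw, ← mul_assoc, ← mul_assoc, ← sub_mul]
          have h3 : C.Y * (C.t - 1) = (C.t * C.d - 1) * C.Y := by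
            have := C.rel'
            rw [neg_mul, neg_add_eq_zero] at this
            exact this.symm
          rw [h3, sub_self, zero_mul]
        exact sub_eq_zero.1 (C.L1_inj _ this)
      funext j
      fin_cases j
      · simpa [Matrix.mulVec, dotProduct] using hw
      · refine Eq.trans ?_ h1.symm
        simp [Matrix.mulVec, dotProduct]
    | 1 => exact absurd rfl hi
    | 2 => exact ⟨0, funext fun j => Fin.elim0 (show Fin 0 from j)⟩
    | n + 3 => exact ⟨0, funext fun j => Fin.elim0 (show Fin 0 from j)⟩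
  · intro z
    obtain ⟨a, ha⟩ := ((opS_surj s2 δ).comp C.pL_surj) (Finsupp.single () z)
    refine ⟨fun _ => a, ?_⟩
    change (opS s2 δ (C.pL a)) () = z
    have ha' : opS s2 δ (C.pL a) = Finsupp.single () z := ha
    rw [ha']
    simp
  · intro x
    change Fin 1 → MonoidAlgebra ℤ Γ at x
    change (opS s2 δ (C.pL (x 0))) () = 0 ↔ ∃ w : Fin 2 → MonoidAlgebra ℤ Γ,
      Matrix.mulVec (!![-(C.t * C.d - 1), C.Y] : Matrix (Fin 1) (Fin 2) _) w = x
    have h1 : (opS s2 δ (C.pL (x 0))) () = 0 ↔ opS s2 δ (C.pL (x 0)) = 0 := by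
      constructor
      · intro h; ext; exact h
      · intro h; rw [h]; rfl
    rw [h1, C.L3]
    constructor
    · rintro ⟨b, c, h⟩
      refine ⟨![-c, b], ?_⟩
      funext j
      fin_cases j
      refine Eq.trans ?_ h.symm
      simp only [Matrix.mulVec, dotProduct, Fin.sum_univ_two]
      simp [add_comm]
      rw [← neg_mul, neg_sub]
    · rintro ⟨w, rfl⟩
      refine ⟨w 1, -(w 0), ?_⟩
      simp [Matrix.mulVec, dotProduct, Fin.sum_univ_two, add_comm]
      rw [← neg_mul, neg_sub]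

end Coord2

end Pool.Agent.Helper7.PD
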