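import Pool.Agent.Helper7.PD.Dim2Res

set_option autoImplicit false
set_option linter.unusedSectionVars false

open CategoryTheory Limits

namespace Pool.Agent.Helper7.PD

/-- A coordinate system identifying `Γ` with the group of triples `(m, n, i)` (standing for
`x ^ m y ^ n t ^ i`) with multiplication
`(m, n, i) (m', n', i') = (m + ε ^ i m', n + δ ^ i n', i + i')`. -/
structure Coord3 (ε δ : ℤˣ) (Γ : Type) [Group Γ] where
  /-- coordinates -/
  e : Γ ≃ ℤ × ℤ × ℤ
  e_mul : ∀ g h, e (g * h) = ((e g).1 + (((ε ^ (e g).2.2 : ℤˣ) : ℤ)) * (e h).1,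
    (e g).2.1 + (((δ ^ (e g).2.2 : ℤˣ) : ℤ)) * (e h).2.1, (e g).2.2 + (e h).2.2)

namespace Coord3

variable {ε δ : ℤˣ} {Γ : Type} [Group Γ] (C : Coord3 ε δ Γ)

lemma symm_mul (a b : ℤ × ℤ × ℤ) : C.e.symm a * C.e.symm b =
    C.e.symm (a.1 + (((ε ^ a.2.2 : ℤˣ) : ℤ)) * b.1, a.2.1 + (((δ ^ a.2.2 : ℤˣ) : ℤ)) * b.2.1,
      a.2.2 + b.2.2) := by
  apply C.e.injective
  rw [C.e_mul]
  simp

lemma e_one : C.e 1 = (0, 0, 0) := by
  have h := C.e_mul 1 1
  rw [mul_one] at h
  have h2 : (C.e 1).2.2 = 0 := by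
    have := congrArg (fun p => p.2.2) h
    simp at this
    exact this
  have h1 := congrArg Prod.fst h
  have h3 := congrArg (fun p => p.2.1) h
  simp [h2] at h1 h3
  exact Prod.ext h1 (Prod.ext h3 h2)

lemma symm_zero : C.e.symm (0, 0, 0) = 1 := by
  rw [← C.e_one]; simp

/-- generator `x` -/
noncomputable def x : MonoidAlgebra ℤ Γ := MonoidAlgebra.single (C.e.symm (1, 0, 0)) 1
/-- generator `y` -/
noncomputable def y : MonoidAlgebra ℤ Γ := MonoidAlgebra.single (C.e.symm (0, 1, 0)) 1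
/-- generator `t` -/
noncomputable def t : MonoidAlgebra ℤ Γ := MonoidAlgebra.single (C.e.symm (0, 0, 1)) 1
/-- twisting element -/
noncomputable def c : MonoidAlgebra ℤ Γ :=
  MonoidAlgebra.single (C.e.symm ((((ε : ℤ) - 1) / 2), 0, 0)) (ε : ℤ)
/-- twisting element -/
noncomputable def d : MonoidAlgebra ℤ Γ :=
  MonoidAlgebra.single (C.e.symm (0, (((δ : ℤ) - 1) / 2), 0)) (δ : ℤ)
/-- `x - 1` -/
noncomputable def X : MonoidAlgebra ℤ Γ := C.x - 1
/-- `y - 1` -/
noncomputable def Y : MonoidAlgebra ℤ Γ := C.y - 1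

lemma relX : C.X * C.t = C.t * C.c * C.X := by
  simp only [X, x, t, c, sub_mul, mul_sub, one_mul, mul_one, MonoidAlgebra.single_mul_single,
    C.symm_mul]
  rcases Int.units_eq_one_or ε with rfl | rfl
  · norm_num
  · norm_num
    abel

lemma relY : C.Y * C.t = C.t * C.d * C.Y := by
  simp only [Y, y, t, d, sub_mul, mul_sub, one_mul, mul_one, MonoidAlgebra.single_mul_single,
    C.symm_mul]
  rcases Int.units_eq_one_or δ with rfl | rfl
  · norm_num
  · norm_num
    abel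

lemma XY : C.X * C.Y = C.Y * C.X := by
  simp [X, Y, x, y, sub_mul, mul_sub, MonoidAlgebra.single_mul_single, C.symm_mul]
  abel

lemma cY : C.c * C.Y = C.Y * C.c := by
  simp [c, Y, y, sub_mul, mul_sub, MonoidAlgebra.single_mul_single, C.symm_mul]

lemma cX : C.c * C.X = C.X * C.c := by
  simp [c, X, x, sub_mul, mul_sub, MonoidAlgebra.single_mul_single, C.symm_mul, add_comm]

lemma dX : C.d * C.X = C.X * C.d := by
  simp [d, X, x, sub_mul, mul_sub, MonoidAlgebra.single_mul_single, C.symm_mul]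

lemma dY : C.d * C.Y = C.Y * C.d := by
  simp [d, Y, y, sub_mul, mul_sub, MonoidAlgebra.single_mul_single, C.symm_mul, add_comm]

lemma cd : C.c * C.d = C.d * C.c := by
  simp [c, d, MonoidAlgebra.single_mul_single, C.symm_mul, mul_comm]

/-- `σ₁` for right multiplication -/
def sR1 : Γ ≃ (ℤ × ℤ) × ℤ where
  toFun g := ((C.e g).2, ((ε ^ (C.e g).2.2 : ℤˣ) : ℤ) * (C.e g).1)
  invFun p := C.e.symm (((ε ^ p.1.2 : ℤˣ) : ℤ) * p.2, p.1)
  left_inv g := by
    apply C.e.injective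
    simp only [Equiv.apply_symm_apply, ← mul_assoc]
    ext
    · simp [← Units.val_mul]
    · simp
    · simp
  right_inv p := by
    simp only [Equiv.apply_symm_apply, ← mul_assoc]
    ext
    · simp
    · simp
    · simp [← Units.val_mul]

/-- `σ₁` for left multiplication -/
def sL1 : Γ ≃ (ℤ × ℤ) × ℤ where
  toFun g := ((C.e g).2, (C.e g).1)
  invFun p := C.e.symm (p.2, p.1)
  left_inv g := by simp
  right_inv p := by simp

/-- `σ₂` for right multiplication -/
def sR2 (δ : ℤˣ) : ℤ × ℤ ≃ ℤ × ℤ where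
  toFun g := (g.2, ((δ ^ g.2 : ℤˣ) : ℤ) * g.1)
  invFun p := (((δ ^ p.1 : ℤˣ) : ℤ) * p.2, p.1)
  left_inv g := by
    simp only [← mul_assoc]
    ext
    · simp [← Units.val_mul]
    · simp
  right_inv p := by
    simp only [← mul_assoc]
    ext
    · simp
    · simp [← Units.val_mul]

/-- `σ₂` for left multiplication -/
def sL2 : ℤ × ℤ ≃ ℤ × ℤ := Equiv.prodComm ℤ ℤ

open Coord2 (s2 p0 p0_surj p0_inj p0_single)

/-! ### stage 1 -/

lemma R1 (a : MonoidAlgebra ℤ Γ) : p0 Γ (a * C.X) = opT C.sR1 1 (p0 Γ a) - p0 Γ a := by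
  rw [X, mul_sub, mul_one, map_sub]
  congr 1
  induction a using MonoidAlgebra.induction_linear with
  | zero => simp
  | add x y hx hy => rw [add_mul, map_add, hx, hy, map_add, map_add]
  | single g c =>
    rw [x, MonoidAlgebra.single_mul_single, p0_single, p0_single, opT_single]
    simp only [mul_one, Units.val_one, one_mul]
    congr 1
    apply C.sR1.injective
    rw [σ_shiftPerm]
    simp only [sR1, Equiv.coe_fn_mk, C.e_mul, Equiv.apply_symm_apply]
    ext
    · simp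
    · simp
    · simp [mul_add, ← Units.val_mul]

lemma L1 (a : MonoidAlgebra ℤ Γ) : p0 Γ (C.X * a) = opT C.sL1 1 (p0 Γ a) - p0 Γ a := by
  rw [X, sub_mul, one_mul, map_sub]
  congr 1
  induction a using MonoidAlgebra.induction_linear with
  | zero => simp
  | add x y hx hy => rw [mul_add, map_add, hx, hy, map_add, map_add]
  | single g c =>
    rw [x, MonoidAlgebra.single_mul_single, p0_single, p0_single, opT_single]
    simp only [Units.val_one, one_mul]
    congr 1
    apply C.sL1.injective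
    rw [σ_shiftPerm]
    simp only [sL1, Equiv.coe_fn_mk, C.e_mul, Equiv.apply_symm_apply]
    ext
    · simp
    · simp
    · simp [add_comm]

/-- second stage, right multiplication -/
noncomputable def pR : MonoidAlgebra ℤ Γ →ₗ[ℤ] (ℤ × ℤ →₀ ℤ) := opS C.sR1 1 ∘ₗ p0 Γ

/-- second stage, left multiplication -/
noncomputable def pL : MonoidAlgebra ℤ Γ →ₗ[ℤ] (ℤ × ℤ →₀ ℤ) := opS C.sL1 1 ∘ₗ p0 Γ

lemma pR_surj : Function.Surjective C.pR := (opS_surj _ _).comp p0_surj
lemma pL_surj : Function.Surjective C.pL := (opS_surj _ _).comp p0_surj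

lemma pR_single (g : Γ) (c : ℤ) :
    C.pR (MonoidAlgebra.single g c) = Finsupp.single (C.e g).2 c := by
  simp [pR, opS_single, sR1]

lemma pL_single (g : Γ) (c : ℤ) :
    C.pL (MonoidAlgebra.single g c) = Finsupp.single (C.e g).2 c := by
  simp [pL, opS_single, sL1]

lemma R2 (a : MonoidAlgebra ℤ Γ) : C.pR (a * C.Y) = opT (sR2 δ) 1 (C.pR a) - C.pR a := by
  rw [Y, mul_sub, mul_one, map_sub]
  congr 1
  induction a using MonoidAlgebra.induction_linear with
  | zero => simp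
  | add x y hx hy => rw [add_mul, map_add, hx, hy, map_add, map_add]
  | single g c =>
    rw [y, MonoidAlgebra.single_mul_single, pR_single, pR_single, opT_single]
    simp only [mul_one, Units.val_one, one_mul]
    congr 1
    apply (sR2 δ).injective
    rw [σ_shiftPerm]
    simp only [sR2, Equiv.coe_fn_mk, C.e_mul, Equiv.apply_symm_apply]
    ext
    · simp
    · simp [mul_add, ← Units.val_mul]

lemma L2 (a : MonoidAlgebra ℤ Γ) : C.pL (C.Y * a) = opT sL2 1 (C.pL a) - C.pL a := by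
  rw [Y, sub_mul, one_mul, map_sub]
  congr 1
  induction a using MonoidAlgebra.induction_linear with
  | zero => simp
  | add x y hx hy => rw [mul_add, map_add, hx, hy, map_add, map_add]
  | single g c =>
    rw [y, MonoidAlgebra.single_mul_single, pL_single, pL_single, opT_single]
    simp only [Units.val_one, one_mul]
    congr 1
    apply sL2.injective
    rw [σ_shiftPerm]
    simp only [sL2, Equiv.prodComm_apply, C.e_mul, Equiv.apply_symm_apply]
    ext
    · simp
    · simp [add_comm]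

/-- third stage, right multiplication -/
noncomputable def qR : MonoidAlgebra ℤ Γ →ₗ[ℤ] (ℤ →₀ ℤ) := opS (sR2 δ) 1 ∘ₗ C.pR

/-- third stage, left multiplication -/
noncomputable def qL : MonoidAlgebra ℤ Γ →ₗ[ℤ] (ℤ →₀ ℤ) := opS sL2 1 ∘ₗ C.pL

lemma qR_surj : Function.Surjective C.qR := (opS_surj _ _).comp C.pR_surj
lemma qL_surj : Function.Surjective C.qL := (opS_surj _ _).comp C.pL_surj

lemma qR_single (g : Γ) (c : ℤ) :
    C.qR (MonoidAlgebra.single g c) = Finsupp.single (C.e g).2.2 c := by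
  simp [qR, opS_single, sR2, C.pR_single]

lemma qL_single (g : Γ) (c : ℤ) :
    C.qL (MonoidAlgebra.single g c) = Finsupp.single (C.e g).2.2 c := by
  simp [qL, opS_single, sL2, C.pL_single]

lemma R3 (a : MonoidAlgebra ℤ Γ) : C.qR (a * (C.t - 1)) = opT s2 1 (C.qR a) - C.qR a := by
  rw [mul_sub, mul_one, map_sub]
  congr 1
  induction a using MonoidAlgebra.induction_linear with
  | zero => simp
  | add x y hx hy => rw [add_mul, map_add, hx, hy, map_add, map_add]
  | single g c =>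
    rw [t, MonoidAlgebra.single_mul_single, qR_single, qR_single, opT_single]
    simp only [mul_one, Units.val_one, one_mul]
    congr 1
    apply s2.injective
    rw [σ_shiftPerm]
    simp [s2, C.e_mul]

lemma L3 (a : MonoidAlgebra ℤ Γ) :
    C.qL ((C.t * C.c * C.d - 1) * a) = opT s2 (ε * δ) (C.qL a) - C.qL a := by
  rw [sub_mul, one_mul, map_sub]
  congr 1
  induction a using MonoidAlgebra.induction_linear with
  | zero => simp
  | add x y hx hy => rw [mul_add, map_add, hx, hy, map_add, map_add]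
  | single g z =>
    rw [t, c, d, MonoidAlgebra.single_mul_single, MonoidAlgebra.single_mul_single,
      MonoidAlgebra.single_mul_single, qL_single, qL_single, opT_single]
    simp only [one_mul, Units.val_mul]
    congr 1
    apply s2.injective
    rw [σ_shiftPerm]
    simp [s2, C.e_mul, add_comm]

/-! ### consequences -/

lemma R1_inj (a : MonoidAlgebra ℤ Γ) (h : a * C.X = 0) : a = 0 := by
  apply p0_inj
  rw [map_zero]
  exact step_inj C.sR1 1 (p0 Γ) (fun a => a * C.X) C.R1 a (by simp only [h, map_zero])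

lemma L1_inj (a : MonoidAlgebra ℤ Γ) (h : C.X * a = 0) : a = 0 := by
  apply p0_inj
  rw [map_zero]
  exact step_inj C.sL1 1 (p0 Γ) (fun a => C.X * a) C.L1 a (by simp only [h, map_zero])

lemma pR_eq_zero (a : MonoidAlgebra ℤ Γ) : C.pR a = 0 ↔ ∃ b, b * C.X = a := by
  constructor
  · intro h
    obtain ⟨b, hb⟩ := step_ker C.sR1 1 (p0 Γ) (fun a => a * C.X) p0_surj C.R1 a h
    refine ⟨b, ?_⟩
    have := p0_inj (hb.trans (map_zero _).symm)
    exact (sub_eq_zero.1 this).symm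
  · rintro ⟨b, rfl⟩
    exact step_zero C.sR1 1 (p0 Γ) (fun a => a * C.X) C.R1 b

lemma pL_eq_zero (a : MonoidAlgebra ℤ Γ) : C.pL a = 0 ↔ ∃ b, C.X * b = a := by
  constructor
  · intro h
    obtain ⟨b, hb⟩ := step_ker C.sL1 1 (p0 Γ) (fun a => C.X * a) p0_surj C.L1 a h
    refine ⟨b, ?_⟩
    have := p0_inj (hb.trans (map_zero _).symm)
    exact (sub_eq_zero.1 this).symm
  · rintro ⟨b, rfl⟩
    exact step_zero C.sL1 1 (p0 Γ) (fun a => C.X * a) C.L1 b

lemma R2_inj (a : MonoidAlgebra ℤ Γ) (h : ∃ b, b * C.X = a * C.Y) : ∃ b, b * C.X = a := by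
  rw [← C.pR_eq_zero] at h ⊢
  exact step_inj (sR2 δ) 1 C.pR (fun a => a * C.Y) C.R2 a h

lemma L2_inj (a : MonoidAlgebra ℤ Γ) (h : ∃ b, C.X * b = C.Y * a) : ∃ b, C.X * b = a := by
  rw [← C.pL_eq_zero] at h ⊢
  exact step_inj sL2 1 C.pL (fun a => C.Y * a) C.L2 a h

lemma qR_eq_zero (a : MonoidAlgebra ℤ Γ) : C.qR a = 0 ↔ ∃ b c, b * C.X + c * C.Y = a := by
  constructor
  · intro h
    obtain ⟨c, hc⟩ := step_ker (sR2 δ) 1 C.pR (fun a => a * C.Y) C.pR_surj C.R2 a h
    rw [C.pR_eq_zero] at hc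
    obtain ⟨b, hb⟩ := hc
    exact ⟨b, c, by rw [hb]; abel⟩
  · rintro ⟨b, c, rfl⟩
    have h1 : C.qR (b * C.X) = 0 := by
      change opS (sR2 δ) 1 (C.pR (b * C.X)) = 0
      rw [(C.pR_eq_zero _).2 ⟨b, rfl⟩, map_zero]
    rw [map_add, h1, zero_add]
    exact step_zero (sR2 δ) 1 C.pR (fun a => a * C.Y) C.R2 c

lemma qL_eq_zero (a : MonoidAlgebra ℤ Γ) : C.qL a = 0 ↔ ∃ b c, C.X * b + C.Y * c = a := by
  constructor
  · intro h
    obtain ⟨c, hc⟩ := step_ker sL2 1 C.pL (fun a => C.Y * a) C.pL_surj C.L2 a h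
    rw [C.pL_eq_zero] at hc
    obtain ⟨b, hb⟩ := hc
    exact ⟨b, c, by rw [hb]; abel⟩
  · rintro ⟨b, c, rfl⟩
    have h1 : C.qL (C.X * b) = 0 := by
      change opS sL2 1 (C.pL (C.X * b)) = 0
      rw [(C.pL_eq_zero _).2 ⟨b, rfl⟩, map_zero]
    rw [map_add, h1, zero_add]
    exact step_zero sL2 1 C.pL (fun a => C.Y * a) C.L2 c

lemma R3_inj (a : MonoidAlgebra ℤ Γ) (h : ∃ b c, b * C.X + c * C.Y = a * (C.t - 1)) :
    ∃ b c, b * C.X + c * C.Y = a := by
  rw [← C.qR_eq_zero] at h ⊢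
  exact step_inj s2 1 C.qR (fun a => a * (C.t - 1)) C.R3 a h

lemma L3_inj (a : MonoidAlgebra ℤ Γ)
    (h : ∃ b c, C.X * b + C.Y * c = (C.t * C.c * C.d - 1) * a) :
    ∃ b c, C.X * b + C.Y * c = a := by
  rw [← C.qL_eq_zero] at h ⊢
  exact step_inj s2 (ε * δ) C.qL (fun a => (C.t * C.c * C.d - 1) * a) C.L3 a h

lemma R4 (a : MonoidAlgebra ℤ Γ) (h : opS s2 1 (C.qR a) = 0) :
    ∃ b b' b'', a = b * C.X + b' * C.Y + b'' * (C.t - 1) := by
  obtain ⟨b'', hc⟩ := step_ker s2 1 C.qR (fun a => a * (C.t - 1)) C.qR_surj C.R3 a h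
  rw [C.qR_eq_zero] at hc
  obtain ⟨b, b', hb⟩ := hc
  exact ⟨b, b', b'', by rw [hb]; abel⟩

lemma L4 (a : MonoidAlgebra ℤ Γ) : opS s2 (ε * δ) (C.qL a) = 0 ↔
    ∃ b b' b'', a = C.X * b + C.Y * b' + (C.t * C.c * C.d - 1) * b'' := by
  constructor
  · intro h
    obtain ⟨b'', hc⟩ := step_ker s2 (ε * δ) C.qL (fun a => (C.t * C.c * C.d - 1) * a) C.qL_surj
      C.L3 a h
    rw [C.qL_eq_zero] at hc
    obtain ⟨b, b', hb⟩ := hc
    exact ⟨b, b', b'', by rw [hb]; abel⟩
  · rintro ⟨b, b', b'', rfl⟩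
    rw [map_add, (C.qL_eq_zero _).2 ⟨b, b', rfl⟩, zero_add]
    exact step_zero s2 (ε * δ) C.qL (fun a => (C.t * C.c * C.d - 1) * a) C.L3 b''

lemma aug_eq (a : MonoidAlgebra ℤ Γ) : opS s2 1 (C.qR a) = Finsupp.single () (aug ℤ Γ a) := by
  induction a using MonoidAlgebra.induction_linear with
  | zero => simp
  | add x y hx hy => rw [map_add, map_add, hx, hy, map_add, Finsupp.single_add]
  | single g c => rw [qR_single, opS_single]; simp [s2]

lemma exists_of_aug (a : MonoidAlgebra ℤ Γ) (h : aug ℤ Γ a = 0) :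
    ∃ b b' b'', a = b * C.X + b' * C.Y + b'' * (C.t - 1) := by
  apply C.R4
  rw [aug_eq, h, Finsupp.single_zero]

end Coord3

end Pool.Agent.Helper7.PD
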