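import Pool.Agent.Helper7.PD.Dim3

set_option autoImplicit false
set_option linter.unusedSectionVars false

open CategoryTheory Limits

namespace Pool.Agent.Helper7.PD

namespace Coord3

variable {ε δ : ℤˣ} {Γ : Type} [Group Γ] (C : Coord3 ε δ Γ)

/-- ranks of the free modules in the resolution -/
def rk : ℕ → ℕ
  | 0 => 1
  | 1 => 3
  | 2 => 3
  | 3 => 1
  | _ + 4 => 0

/-- first differential -/
noncomputable def D0 : Matrix (Fin 3) (Fin 1) (MonoidAlgebra ℤ Γ) :=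
  !![C.X; C.Y; C.t - 1]
/-- second differential -/
noncomputable def D1 : Matrix (Fin 3) (Fin 3) (MonoidAlgebra ℤ Γ) :=
  !![-C.Y, C.X, 0; -(C.t * C.c - 1), 0, C.X; 0, -(C.t * C.d - 1), C.Y]
/-- third differential -/
noncomputable def D2 : Matrix (Fin 1) (Fin 3) (MonoidAlgebra ℤ Γ) :=
  !![C.t * C.c * C.d - 1, -C.Y, C.X]

/-- the differentials -/
noncomputable def Dm : ∀ i, Matrix (Fin (rk (i + 1))) (Fin (rk i)) (MonoidAlgebra ℤ Γ)
  | 0 => C.D0
  | 1 => C.D1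
  | 2 => C.D2
  | 3 => (0 : Matrix (Fin 0) (Fin 1) (MonoidAlgebra ℤ Γ))
  | _ + 4 => (0 : Matrix (Fin 0) (Fin 0) (MonoidAlgebra ℤ Γ))

lemma vecMul_D0 (v : Fin 3 → MonoidAlgebra ℤ Γ) :
    Matrix.vecMul v C.D0 = fun _ => v 0 * C.X + v 1 * C.Y + v 2 * (C.t - 1) := by
  funext j
  fin_cases j
  simp [Matrix.vecMul, dotProduct, Fin.sum_univ_three, D0]

lemma vecMul_D1 (v : Fin 3 → MonoidAlgebra ℤ Γ) :
    Matrix.vecMul v C.D1 = ![-(v 0 * C.Y) - v 1 * (C.t * C.c - 1),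
      v 0 * C.X - v 2 * (C.t * C.d - 1), v 1 * C.X + v 2 * C.Y] := by
  funext j
  fin_cases j
  · simp [Matrix.vecMul, dotProduct, Fin.sum_univ_three, D1]
    noncomm_ring
  · simp [Matrix.vecMul, dotProduct, Fin.sum_univ_three, D1]
    noncomm_ring
  · simp [Matrix.vecMul, dotProduct, Fin.sum_univ_three, D1]

lemma vecMul_D2 (v : Fin 1 → MonoidAlgebra ℤ Γ) :
    Matrix.vecMul v C.D2 = ![v 0 * (C.t * C.c * C.d - 1), -(v 0 * C.Y), v 0 * C.X] := by
  funext j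
  fin_cases j <;> simp [Matrix.vecMul, dotProduct, D2]

lemma mulVec_D0 (v : Fin 1 → MonoidAlgebra ℤ Γ) :
    Matrix.mulVec C.D0 v = ![C.X * v 0, C.Y * v 0, (C.t - 1) * v 0] := by
  funext j
  fin_cases j <;> simp [Matrix.mulVec, dotProduct, D0]

lemma mulVec_D1 (v : Fin 3 → MonoidAlgebra ℤ Γ) :
    Matrix.mulVec C.D1 v = ![-(C.Y * v 0) + C.X * v 1,
      -((C.t * C.c - 1) * v 0) + C.X * v 2, -((C.t * C.d - 1) * v 1) + C.Y * v 2] := by
  funext j
  fin_cases j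
  · simp [Matrix.mulVec, dotProduct, Fin.sum_univ_three, D1]
  · simp [Matrix.mulVec, dotProduct, Fin.sum_univ_three, D1]
    noncomm_ring
  · simp [Matrix.mulVec, dotProduct, Fin.sum_univ_three, D1]
    noncomm_ring

lemma mulVec_D2 (v : Fin 3 → MonoidAlgebra ℤ Γ) :
    Matrix.mulVec C.D2 v = fun _ => (C.t * C.c * C.d - 1) * v 0 - C.Y * v 1 + C.X * v 2 := by
  funext j
  fin_cases j
  simp [Matrix.mulVec, dotProduct, Fin.sum_univ_three, D2]
  noncomm_ring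

lemma aug_X : aug ℤ Γ C.X = 0 := by simp [X, x]
lemma aug_Y : aug ℤ Γ C.Y = 0 := by simp [Y, y]
lemma aug_t : aug ℤ Γ (C.t - 1) = 0 := by simp [t]

lemma tcX : (C.t * C.c - 1) * C.X = C.X * (C.t - 1) := by
  rw [mul_sub C.X, C.relX]; noncomm_ring

lemma tdY : (C.t * C.d - 1) * C.Y = C.Y * (C.t - 1) := by
  rw [mul_sub C.Y, C.relY]; noncomm_ring

lemma tcdX : (C.t * C.c * C.d - 1) * C.X = C.X * (C.t * C.d - 1) := by
  rw [sub_mul, mul_assoc _ C.d, C.dX, ← mul_assoc, mul_sub, ← mul_assoc C.X, C.relX]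
  noncomm_ring

lemma tcdY : (C.t * C.c * C.d - 1) * C.Y = C.Y * (C.t * C.c - 1) := by
  rw [mul_assoc C.t, C.cd, ← mul_assoc, sub_mul, mul_assoc _ C.c, C.cY, ← mul_assoc, mul_sub,
    ← mul_assoc C.Y, C.relY]
  noncomm_ring

lemma D1_D0 : C.D1 * C.D0 = 0 := by
  ext1 i j
  fin_cases j
  fin_cases i
  · simp [Matrix.mul_apply, Fin.sum_univ_three, D1, D0, C.XY]
  · have := C.tcX
    simp [Matrix.mul_apply, Fin.sum_univ_three, D1, D0]
    rw [← this]; noncomm_ring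
  · have := C.tdY
    simp [Matrix.mul_apply, Fin.sum_univ_three, D1, D0]
    rw [← this]; noncomm_ring

lemma D2_D1 : C.D2 * C.D1 = 0 := by
  ext1 i j
  fin_cases i
  fin_cases j
  · have := C.tcdY
    simp [Matrix.mul_apply, Fin.sum_univ_three, D1, D2]
    rw [this]; noncomm_ring
  · have := C.tcdX
    simp [Matrix.mul_apply, Fin.sum_univ_three, D1, D2]
    rw [this]; noncomm_ring
  · simp [Matrix.mul_apply, Fin.sum_univ_three, D1, D2, C.XY]

lemma exact_0 (v : Fin 3 → MonoidAlgebra ℤ Γ) (h : Matrix.vecMul v C.D0 = 0) :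
    ∃ w, Matrix.vecMul w C.D1 = v := by
  rw [vecMul_D0] at h
  have h0 : v 0 * C.X + v 1 * C.Y + v 2 * (C.t - 1) = 0 := congrFun h 0
  obtain ⟨α, β, hab⟩ := C.R3_inj (v 2) ⟨-(v 0), -(v 1), by
    rw [neg_mul, neg_mul, ← neg_add]; exact neg_eq_of_add_eq_zero_right h0⟩
  -- (v0 + α (tc - 1)) X + (v1 + β (td - 1)) Y = 0
  have h1 : (v 0 + α * (C.t * C.c - 1)) * C.X + (v 1 + β * (C.t * C.d - 1)) * C.Y = 0 := by
    rw [← h0, ← hab]
    simp only [add_mul, mul_assoc, C.tcX, C.tdY]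
    abel
  obtain ⟨γ, hγ⟩ := C.R2_inj (v 1 + β * (C.t * C.d - 1))
    ⟨-(v 0 + α * (C.t * C.c - 1)), by rw [neg_mul]; exact neg_eq_of_add_eq_zero_right h1⟩
  have h2 : v 0 + α * (C.t * C.c - 1) + γ * C.Y = 0 := by
    apply C.R1_inj
    rw [← hγ] at h1
    rw [← h1]
    simp only [add_mul, mul_assoc, C.XY]
  refine ⟨![γ, α, β], ?_⟩
  rw [vecMul_D1]
  funext j
  fin_cases j
  · change -(γ * C.Y) - α * (C.t * C.c - 1) = v 0
    rw [← sub_eq_zero, ← neg_eq_zero, ← h2]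
    abel
  · change γ * C.X - β * (C.t * C.d - 1) = v 1
    rw [hγ]; abel
  · exact hab

lemma exact_1 (v : Fin 3 → MonoidAlgebra ℤ Γ) (h : Matrix.vecMul v C.D1 = 0) :
    ∃ w, Matrix.vecMul w C.D2 = v := by
  rw [vecMul_D1] at h
  have h1 : v 0 * C.X - v 2 * (C.t * C.d - 1) = 0 := congrFun h 1
  have h2 : v 1 * C.X + v 2 * C.Y = 0 := congrFun h 2
  obtain ⟨q, hq⟩ := C.R2_inj (v 2) ⟨-(v 1), by
    rw [neg_mul]; exact neg_eq_of_add_eq_zero_right h2⟩
  have h3 : v 1 + q * C.Y = 0 := by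
    apply C.R1_inj
    rw [← hq] at h2
    rw [← h2]
    simp only [add_mul, mul_assoc, C.XY]
  have h4 : v 0 - q * (C.t * C.c * C.d - 1) = 0 := by
    apply C.R1_inj
    rw [sub_mul, mul_assoc q, C.tcdX, ← mul_assoc, hq]
    exact h1
  refine ⟨fun _ => q, ?_⟩
  rw [vecMul_D2]
  funext j
  fin_cases j
  · exact (sub_eq_zero.1 h4).symm
  · change -(q * C.Y) = v 1
    rw [← sub_eq_zero, ← neg_eq_zero, ← h3]
    abel
  · exact hq

lemma exact_2 (v : Fin 1 → MonoidAlgebra ℤ Γ) (h : Matrix.vecMul v C.D2 = 0) : v = 0 := by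
  rw [vecMul_D2] at h
  have h2 : v 0 * C.X = 0 := congrFun h 2
  funext j
  fin_cases j
  exact C.R1_inj _ h2

lemma coexact_0 (v : Fin 1 → MonoidAlgebra ℤ Γ) (h : Matrix.mulVec C.D0 v = 0) : v = 0 := by
  rw [mulVec_D0] at h
  have h2 : C.X * v 0 = 0 := congrFun h 0
  funext j
  fin_cases j
  exact C.L1_inj _ h2

lemma coexact_1 (v : Fin 3 → MonoidAlgebra ℤ Γ) (h : Matrix.mulVec C.D1 v = 0) :
    ∃ w, Matrix.mulVec C.D0 w = v := by
  rw [mulVec_D1] at h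
  have h0 : -(C.Y * v 0) + C.X * v 1 = 0 := congrFun h 0
  have h1 : -((C.t * C.c - 1) * v 0) + C.X * v 2 = 0 := congrFun h 1
  obtain ⟨w, hw⟩ := C.L2_inj (v 0) ⟨v 1, (neg_add_eq_zero.1 h0).symm⟩
  refine ⟨fun _ => w, ?_⟩
  rw [mulVec_D0]
  funext j
  fin_cases j
  · exact hw
  · change C.Y * w = v 1
    have : C.X * (C.Y * w - v 1) = 0 := by
      rw [mul_sub, ← mul_assoc, C.XY, mul_assoc, hw, neg_add_eq_zero.1 h0, sub_self]
    exact sub_eq_zero.1 (C.L1_inj _ this)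
  · change (C.t - 1) * w = v 2
    have : C.X * ((C.t - 1) * w - v 2) = 0 := by
      rw [mul_sub, ← mul_assoc, ← C.tcX, mul_assoc, hw, neg_add_eq_zero.1 h1, sub_self]
    exact sub_eq_zero.1 (C.L1_inj _ this)

lemma coexact_2 (v : Fin 3 → MonoidAlgebra ℤ Γ) (h : Matrix.mulVec C.D2 v = 0) :
    ∃ w, Matrix.mulVec C.D1 w = v := by
  rw [mulVec_D2] at h
  have h0 : (C.t * C.c * C.d - 1) * v 0 - C.Y * v 1 + C.X * v 2 = 0 := congrFun h 0
  obtain ⟨wy, wx', hw⟩ := C.L3_inj (v 0) ⟨-(v 2), v 1, by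
    rw [mul_neg, neg_add_eq_iff_eq_add, eq_comm]
    have := h0
    rw [sub_add_eq_add_sub, sub_eq_zero] at this
    rw [add_comm]; exact this⟩
  -- v 0 = X wy + Y wx', put wx = - wx'
  have h1 : C.Y * ((C.t * C.c - 1) * wx' - v 1) = C.X * (-((C.t * C.d - 1) * wy) - v 2) := by
    rw [← sub_eq_zero, ← h0, ← hw]
    rw [mul_add, ← mul_assoc _ C.X, ← mul_assoc _ C.Y, C.tcdX, C.tcdY]
    noncomm_ring
  obtain ⟨wz', hz⟩ := C.L2_inj _ ⟨_, h1.symm⟩
  refine ⟨![-wx', wy, -wz'], ?_⟩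
  rw [mulVec_D1]
  funext j
  fin_cases j
  · change -(C.Y * (-wx')) + C.X * wy = v 0
    rw [← hw]; noncomm_ring
  · change -((C.t * C.c - 1) * (-wx')) + C.X * (-wz') = v 1
    rw [mul_neg, mul_neg, hz]; noncomm_ring
  · change -((C.t * C.d - 1) * wy) + C.Y * (-wz') = v 2
    have h2 : C.X * (C.Y * wz' - (-((C.t * C.d - 1) * wy) - v 2)) = 0 := by
      rw [mul_sub, ← mul_assoc, C.XY, mul_assoc, hz, h1, sub_self]
    have h3 := sub_eq_zero.1 (C.L1_inj _ h2)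
    rw [mul_neg, h3]; noncomm_ring

/-- The resolution. -/
noncomputable def resData : ResData ℤ Γ where
  α i := Fin (rk i)
  D := C.Dm
  e := fun _ => 1
  DD i := by
    match i with
    | 0 => exact C.D1_D0
    | 1 => exact C.D2_D1
    | 2 => exact funext fun a => Fin.elim0 (show Fin 0 from a)
    | 3 => exact funext fun a => Fin.elim0 (show Fin 0 from a)
    | n + 4 => exact funext fun a => Fin.elim0 (show Fin 0 from a)
  De a := by
    change Fin 3 at a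
    change ∑ b : Fin 1, aug ℤ Γ (C.D0 a b) * 1 = 0
    fin_cases a
    · simpa [D0] using C.aug_X
    · simpa [D0] using C.aug_Y
    · simpa [D0] using C.aug_t
  exact i v h := by
    match i with
    | 0 => exact C.exact_0 v h
    | 1 => exact C.exact_1 v h
    | 2 =>
      refine ⟨0, ?_⟩
      rw [Matrix.zero_vecMul]
      exact (C.exact_2 v h).symm
    | 3 => exact ⟨0, funext fun j => Fin.elim0 (show Fin 0 from j)⟩
    | n + 4 => exact ⟨0, funext fun j => Fin.elim0 (show Fin 0 from j)⟩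
  exact0 v h := by
    change Fin 1 → MonoidAlgebra ℤ Γ at v
    change ∑ b : Fin 1, aug ℤ Γ (v b) * 1 = 0 at h
    obtain ⟨b, b', b'', hbc⟩ := C.exists_of_aug (v 0) (by simpa using h)
    refine ⟨(![b, b', b''] : Fin 3 → MonoidAlgebra ℤ Γ), ?_⟩
    change Matrix.vecMul ![b, b', b''] C.D0 = v
    rw [vecMul_D0]
    funext j
    fin_cases j
    exact hbc.symm
  surj := by
    refine ⟨(fun _ => 1 : Fin 1 → MonoidAlgebra ℤ Γ), ?_⟩
    change ∑ b : Fin 1, aug ℤ Γ 1 * 1 = 1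
    simp

include C in
theorem isPDGroup : IsPDGroup 3 Γ := by
  refine isPDGroup_of_resData C.resData 2 ?_ ?_ ?_
    ((Finsupp.lapply ()) ∘ₗ opS Coord2.s2 (ε * δ) ∘ₗ C.qL ∘ₗ
      (LinearMap.proj (0 : Fin 1) : (Fin 1 → MonoidAlgebra ℤ Γ) →ₗ[ℤ] MonoidAlgebra ℤ Γ)) ?_ ?_
  · intro i hi
    match i with
    | 0 => omega
    | 1 => omega
    | 2 => omega
    | 3 => omega
    | n + 4 => exact ⟨fun a => Fin.elim0 (show Fin 0 from a)⟩
  · intro v hv
    exact C.coexact_0 v hv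
  · intro i hi v hv
    match i with
    | 0 => exact C.coexact_1 v hv
    | 1 => exact C.coexact_2 v hv
    | 2 => exact absurd rfl hi
    | 3 => exact ⟨0, funext fun j => Fin.elim0 (show Fin 0 from j)⟩
    | n + 4 => exact ⟨0, funext fun j => Fin.elim0 (show Fin 0 from j)⟩
  · intro z
    obtain ⟨a, ha⟩ := ((opS_surj Coord2.s2 (ε * δ)).comp C.qL_surj) (Finsupp.single () z)
    refine ⟨fun _ => a, ?_⟩
    change (opS Coord2.s2 (ε * δ) (C.qL a)) () = z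
    have ha' : opS Coord2.s2 (ε * δ) (C.qL a) = Finsupp.single () z := ha
    rw [ha']
    simp
  · intro x
    change Fin 1 → MonoidAlgebra ℤ Γ at x
    change (opS Coord2.s2 (ε * δ) (C.qL (x 0))) () = 0 ↔ ∃ w : Fin 3 → MonoidAlgebra ℤ Γ,
      Matrix.mulVec C.D2 w = x
    have h1 : (opS Coord2.s2 (ε * δ) (C.qL (x 0))) () = 0 ↔
        opS Coord2.s2 (ε * δ) (C.qL (x 0)) = 0 := by
      constructor
      · intro h; ext; exact h
      · intro h; rw [h]; rfl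
    rw [h1, C.L4]
    constructor
    · rintro ⟨b, b', b'', h⟩
      refine ⟨![b'', -b', b], ?_⟩
      rw [mulVec_D2]
      funext j
      fin_cases j
      refine Eq.trans ?_ h.symm
      change (C.t * C.c * C.d - 1) * b'' - C.Y * (-b') + C.X * b = _
      noncomm_ring
    · rintro ⟨w, rfl⟩
      refine ⟨w 2, -(w 1), w 0, ?_⟩
      rw [mulVec_D2]
      noncomm_ring

end Coord3

end Pool.Agent.Helper7.PD
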