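import Mathlib

set_option autoImplicit false

open CategoryTheory Limits

namespace Pool.Agent.Helper7.PD

variable {k G : Type} [CommRing k] [Group G]

section lemmas

variable {α β : Type} [Fintype α] [Finite β] [DecidableEq α] [DecidableEq β]

omit [Finite β] in
lemma free_apply_apply (g : G) (w : β →₀ MonoidAlgebra k G) (b : β) :
    (Representation.free k G β g w) b = MonoidAlgebra.single g 1 * w b := by
  induction w using Finsupp.induction_linear with
  | zero => simp
  | add x y hx hy => simp [mul_add, hx, hy]
  | single c x =>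
    induction x using MonoidAlgebra.induction_linear with
    | zero => simp
    | add x y hx hy =>
      rw [Finsupp.single_add, map_add, Finsupp.add_apply, hx, hy, Finsupp.add_apply, mul_add]
    | single h r =>
      rw [Representation.free_single_single]
      by_cases hbc : c = b
      · subst hbc; simp
      · simp [hbc]

/-- The matrix as a family of generators' images. -/
noncomputable def rowsFinsupp (D : Matrix α β (MonoidAlgebra k G)) (a : α) :
    β →₀ MonoidAlgebra k G := Finsupp.equivFunOnFinite.symm (D a)

lemma freeLift_coe (D : Matrix α β (MonoidAlgebra k G)) (v : α →₀ MonoidAlgebra k G) :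
    ⇑((Representation.freeLift (Representation.free k G β) (rowsFinsupp D)) v) =
      Matrix.vecMul (⇑v) D := by
  induction v using Finsupp.induction_linear with
  | zero => simp
  | add x y hx hy => rw [map_add, Finsupp.coe_add, hx, hy, Finsupp.coe_add, Matrix.add_vecMul]
  | single c x =>
    induction x using MonoidAlgebra.induction_linear with
    | zero => simp
    | add x y hx hy =>
      rw [Finsupp.single_add, map_add, Finsupp.coe_add, hx, hy, Finsupp.coe_add,
        Matrix.add_vecMul]
    | single h r =>
      ext1 b
      rw [Representation.freeLift_single_single, Finsupp.smul_apply, free_apply_apply]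
      simp [rowsFinsupp, Matrix.vecMul, dotProduct, Finsupp.single_apply, ite_mul,
        ← smul_mul_assoc]

/-- The augmentation `k[G] → k`. -/
noncomputable def aug (k G : Type) [CommRing k] [Group G] : MonoidAlgebra k G →ₐ[k] k :=
  MonoidAlgebra.lift k k G 1

@[simp] lemma aug_single (g : G) (r : k) : aug k G (MonoidAlgebra.single g r) = r := by
  simp [aug]

lemma freeLift_trivial (e : α → k) (v : α →₀ MonoidAlgebra k G) :
    (Representation.freeLift (Representation.trivial k G k) e) v =
      ∑ a, aug k G (v a) * e a := by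
  induction v using Finsupp.induction_linear with
  | zero => simp
  | add x y hx hy => simp [map_add, hx, hy, add_mul, Finset.sum_add_distrib]
  | single c x =>
    induction x using MonoidAlgebra.induction_linear with
    | zero => simp
    | add x y hx hy =>
      rw [Finsupp.single_add, map_add, hx, hy, ← Finset.sum_add_distrib]
      refine Finset.sum_congr rfl fun a _ => ?_
      rw [Finsupp.add_apply, map_add, add_mul]
    | single h r =>
      rw [Representation.freeLift_single_single]
      simp [Finsupp.single_apply, apply_ite (aug k G), ite_mul]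

end lemmas

/-- Explicit data of a resolution of the trivial module `ℤ` by finitely generated free
`ℤ[G]`-modules: index types `α i`, matrices `D i`, and a vector `e` defining the augmentation. -/
structure ResData (k G : Type) [CommRing k] [Group G] where
  /-- index types -/
  α : ℕ → Type
  [fin : ∀ i, Fintype (α i)]
  [dec : ∀ i, DecidableEq (α i)]
  /-- matrices of the differentials -/
  D : ∀ i, Matrix (α (i + 1)) (α i) (MonoidAlgebra k G)
  /-- augmentation of generators -/
  e : α 0 → k
  DD : ∀ i, D (i + 1) * D i = 0
  De : ∀ a, ∑ b, aug k G (D 0 a b) * e b = 0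
  exact : ∀ i, ∀ v : α (i + 1) → MonoidAlgebra k G, Matrix.vecMul v (D i) = 0 →
    ∃ w, Matrix.vecMul w (D (i + 1)) = v
  exact0 : ∀ v : α 0 → MonoidAlgebra k G, ∑ b, aug k G (v b) * e b = 0 →
    ∃ w, Matrix.vecMul w (D 0) = v
  surj : ∃ v : α 0 → MonoidAlgebra k G, ∑ b, aug k G (v b) * e b = 1

namespace ResData

attribute [instance] ResData.fin ResData.dec

variable (R : ResData k G)

/-- differential in `Rep`. -/
noncomputable def dRep (i : ℕ) : Rep.free k G (R.α (i + 1)) ⟶ Rep.free k G (R.α i) :=
  Rep.freeLift k G (Rep.free k G (R.α i)) (rowsFinsupp (R.D i))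

lemma dRep_coe (i : ℕ) (v : R.α (i + 1) →₀ MonoidAlgebra k G) :
    ⇑((R.dRep i).hom v : R.α i →₀ MonoidAlgebra k G) = Matrix.vecMul (⇑v) (R.D i) :=
  freeLift_coe _ _

lemma dRep_comp (i : ℕ) : R.dRep (i + 1) ≫ R.dRep i = 0 := by
  ext1
  ext1
  refine LinearMap.ext fun v => ?_
  apply DFunLike.coe_injective
  change ⇑((R.dRep i).hom ((R.dRep (i + 1)).hom v) : R.α i →₀ MonoidAlgebra k G) = _
  rw [dRep_coe, dRep_coe, Matrix.vecMul_vecMul, R.DD, Matrix.vecMul_zero]
  rfl

/-- The chain complex. -/
noncomputable def complex : ChainComplex (Rep k G) ℕ :=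
  ChainComplex.of (fun i => Rep.free k G (R.α i)) R.dRep R.dRep_comp

lemma complex_d (i : ℕ) : R.complex.d (i + 1) i = R.dRep i := by
  change ChainComplex.of.d (fun i => Rep.free k G (R.α i)) R.dRep (i + 1) i = _
  exact ChainComplex.of_d (fun i => Rep.free k G (R.α i)) R.dRep i

/-- augmentation map. -/
noncomputable def augRep : Rep.free k G (R.α 0) ⟶ Rep.trivial k G k :=
  Rep.freeLift k G (Rep.trivial k G k) R.e

lemma augRep_apply (v : R.α 0 →₀ MonoidAlgebra k G) :
    R.augRep.hom v = ∑ a, aug k G (v a) * R.e a := freeLift_trivial _ _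

lemma dRep_augRep : R.dRep 0 ≫ R.augRep = 0 := by
  refine Rep.free_ext _ _ _ _ _ fun a => ?_
  change R.augRep.hom ((R.dRep 0).hom (Finsupp.single a (MonoidAlgebra.single 1 1))) = 0
  rw [augRep_apply]
  refine Eq.trans (Finset.sum_congr rfl fun b _ => ?_) (R.De a)
  congr 2
  have := congrFun (R.dRep_coe 0 (Finsupp.single a (MonoidAlgebra.single 1 1))) b
  rw [this]
  simp [Matrix.vecMul, dotProduct, Finsupp.single_apply, ite_mul, ← MonoidAlgebra.one_def]

/-- The augmentation as a chain map. -/
noncomputable def π : R.complex ⟶ (ChainComplex.single₀ (Rep k G)).obj (Rep.trivial k G k) :=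
  (R.complex.toSingle₀Equiv _).symm ⟨R.augRep, by
    rw [R.complex_d 0]
    exact R.dRep_augRep⟩

lemma exact_succ (m : ℕ) :
    (ShortComplex.mk (R.dRep (m + 1)) (R.dRep m) (R.dRep_comp m)).Exact := by
  apply (forget₂ (Rep.{0} k G) (ModuleCat.{0} k)).reflects_exact_of_faithful
  rw [ShortComplex.moduleCat_exact_iff]
  intro v hv
  change R.α (m + 1) →₀ MonoidAlgebra k G at v
  have hv' : Matrix.vecMul (⇑v) (R.D m) = 0 := by
    rw [← R.dRep_coe]
    exact congrArg (fun z : R.α m →₀ MonoidAlgebra k G => (⇑z : R.α m → _)) hv
  obtain ⟨w, hw⟩ := R.exact m _ hv'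
  refine ⟨(Finsupp.equivFunOnFinite.symm w : R.α (m + 2) →₀ MonoidAlgebra k G), ?_⟩
  apply DFunLike.coe_injective (F := R.α (m + 1) →₀ MonoidAlgebra k G)
  exact (R.dRep_coe (m + 1) _).trans hw

lemma exact_zero :
    (ShortComplex.mk (R.dRep 0) R.augRep R.dRep_augRep).Exact := by
  apply (forget₂ (Rep.{0} k G) (ModuleCat.{0} k)).reflects_exact_of_faithful
  rw [ShortComplex.moduleCat_exact_iff]
  intro v hv
  change R.α 0 →₀ MonoidAlgebra k G at v
  have hv' : ∑ b, aug k G (v b) * R.e b = 0 := by
    rw [← R.augRep_apply]
    exact hv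
  obtain ⟨w, hw⟩ := R.exact0 _ hv'
  refine ⟨(Finsupp.equivFunOnFinite.symm w : R.α 1 →₀ MonoidAlgebra k G), ?_⟩
  apply DFunLike.coe_injective (F := R.α 0 →₀ MonoidAlgebra k G)
  exact (R.dRep_coe 0 _).trans hw

lemma augRep_surjective : Function.Surjective (⇑R.augRep.hom) := by
  obtain ⟨v, hv⟩ := R.surj
  intro x
  refine ⟨x • (Finsupp.equivFunOnFinite.symm v : R.α 0 →₀ MonoidAlgebra k G), ?_⟩
  have h1 : R.augRep.hom (Finsupp.equivFunOnFinite.symm v : R.α 0 →₀ MonoidAlgebra k G) = 1 := by
    rw [augRep_apply]; exact hv
  rw [map_smul, h1]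
  change x • (1 : k) = x
  simp

lemma quasiIso_π : QuasiIso R.π where
  quasiIsoAt m := by
    induction m with
    | zero =>
      simp only [ResData.π]
      rw [ChainComplex.quasiIsoAt₀_iff, ShortComplex.quasiIso_iff_of_zeros' _ rfl rfl rfl]
      constructor
      · refine (ShortComplex.exact_iff_of_iso ?_).1 R.exact_zero
        refine ShortComplex.isoMk (Iso.refl _) (Iso.refl _) (Iso.refl _) ?_ ?_
        · simp only [Iso.refl_hom]
          refine (Category.id_comp _).trans ((R.complex_d 0).trans ?_)
          exact (Category.comp_id _).symm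
        · simp only [Iso.refl_hom]
          refine (Category.id_comp _).trans ?_
          refine Eq.trans ?_ (Category.comp_id _).symm
          exact ChainComplex.toSingle₀Equiv_symm_apply_f_zero _ _
      · rw [Rep.epi_iff_surjective]
        intro x
        obtain ⟨y, hy⟩ := R.augRep_surjective x
        refine ⟨y, ?_⟩
        refine Eq.trans ?_ hy
        have : ((R.complex.toSingle₀Equiv (Rep.trivial k G k)).symm ⟨R.augRep, by
            rw [R.complex_d 0]
            exact R.dRep_augRep⟩).f 0 = R.augRep :=
          ChainComplex.toSingle₀Equiv_symm_apply_f_zero _ _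
        exact congrArg (fun f : Rep.free k G (R.α 0) ⟶ Rep.trivial k G k => f.hom y) this
    | succ m _ =>
      rw [quasiIsoAt_iff_exactAt' (hL := ChainComplex.exactAt_succ_single_obj ..),
          HomologicalComplex.exactAt_iff' _ (m + 2) (m + 1) m (by simp) (by simp)]
      refine (ShortComplex.exact_iff_of_iso ?_).1 (R.exact_succ m)
      refine ShortComplex.isoMk (Iso.refl _) (Iso.refl _) (Iso.refl _) ?_ ?_
      · simp only [Iso.refl_hom]
        refine (Category.id_comp _).trans ((R.complex_d (m + 1)).trans ?_)
        exact (Category.comp_id _).symm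
      · simp only [Iso.refl_hom]
        refine (Category.id_comp _).trans ((R.complex_d m).trans ?_)
        exact (Category.comp_id _).symm

/-- The projective resolution. -/
noncomputable def projRes : ProjectiveResolution (Rep.trivial k G k) where
  complex := R.complex
  projective i := inferInstanceAs <| Projective (Rep.free k G (R.α i))
  π := R.π
  quasiIso := R.quasiIso_π

end ResData

end Pool.Agent.Helper7.PD
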