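import Pool.Agent.Helper7.PD.Dim3Res

set_option autoImplicit false

namespace Pool.Agent.Helper7.PD

/-- Triples `(m, n, i)`, standing for `x ^ m y ^ n t ^ i`. -/
@[ext] structure G3 (ε δ : ℤˣ) where
  /-- exponent of `x` -/
  m : ℤ
  /-- exponent of `y` -/
  n : ℤ
  /-- exponent of `t` -/
  i : ℤ

namespace G3

variable {ε δ : ℤˣ}

instance : Mul (G3 ε δ) := ⟨fun a b => ⟨a.m + ((ε ^ a.i : ℤˣ) : ℤ) * b.m,
  a.n + ((δ ^ a.i : ℤˣ) : ℤ) * b.n, a.i + b.i⟩⟩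
instance : One (G3 ε δ) := ⟨⟨0, 0, 0⟩⟩
instance : Inv (G3 ε δ) := ⟨fun a => ⟨-(((ε ^ a.i : ℤˣ) : ℤ) * a.m),
  -(((δ ^ a.i : ℤˣ) : ℤ) * a.n), -a.i⟩⟩

@[simp] lemma mul_m (a b : G3 ε δ) : (a * b).m = a.m + ((ε ^ a.i : ℤˣ) : ℤ) * b.m := rfl
@[simp] lemma mul_n (a b : G3 ε δ) : (a * b).n = a.n + ((δ ^ a.i : ℤˣ) : ℤ) * b.n := rfl
@[simp] lemma mul_i (a b : G3 ε δ) : (a * b).i = a.i + b.i := rfl
@[simp] lemma one_m : (1 : G3 ε δ).m = 0 := rfl
@[simp] lemma one_n : (1 : G3 ε δ).n = 0 := rfl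
@[simp] lemma one_i : (1 : G3 ε δ).i = 0 := rfl
@[simp] lemma inv_m (a : G3 ε δ) : (a⁻¹).m = -(((ε ^ a.i : ℤˣ) : ℤ) * a.m) := rfl
@[simp] lemma inv_n (a : G3 ε δ) : (a⁻¹).n = -(((δ ^ a.i : ℤˣ) : ℤ) * a.n) := rfl
@[simp] lemma inv_i (a : G3 ε δ) : (a⁻¹).i = -a.i := rfl

lemma inv_unit_zpow (u : ℤˣ) (i : ℤ) : u ^ (-i) = u ^ i := by
  rcases Int.units_eq_one_or u with rfl | rfl
  · simp
  · simp

instance : Group (G3 ε δ) := Group.ofLeftAxioms
  (fun a b c => by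
    ext
    · simp [mul_add, zpow_add, mul_assoc, add_assoc]
    · simp [mul_add, zpow_add, mul_assoc, add_assoc]
    · simp [add_assoc])
  (fun a => by ext <;> simp)
  (fun a => by
    ext
    · simp only [mul_m, inv_m, inv_i, one_m, inv_unit_zpow]; ring
    · simp only [mul_n, inv_n, inv_i, one_n, inv_unit_zpow]; ring
    · simp)

/-- coordinates -/
def coord (ε δ : ℤˣ) : Coord3 ε δ (G3 ε δ) where
  e := { toFun := fun a => (a.m, a.n, a.i)
         invFun := fun p => ⟨p.1, p.2.1, p.2.2⟩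
         left_inv := fun _ => rfl
         right_inv := fun _ => rfl }
  e_mul _ _ := rfl

/-- The subgroup `⟨y, t⟩`. -/
def H (ε δ : ℤˣ) : Subgroup (G3 ε δ) where
  carrier := {a | a.m = 0}
  mul_mem' {a b} ha hb := by
    simp only [Set.mem_ofPred_eq] at *
    simp [ha, hb]
  one_mem' := rfl
  inv_mem' {a} ha := by
    simp only [Set.mem_ofPred_eq] at *
    simp [ha]

@[simp] lemma mem_H (a : G3 ε δ) : a ∈ H ε δ ↔ a.m = 0 := Iff.rfl

/-- coordinates on `H` -/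
def coordH (ε δ : ℤˣ) : Coord2 δ (H ε δ) where
  e := { toFun := fun a => (a.1.n, a.1.i)
         invFun := fun p => ⟨⟨0, p.1, p.2⟩, rfl⟩
         left_inv := fun a => by
          apply Subtype.ext
          ext
          · exact a.2.symm
          · rfl
          · rfl
         right_inv := fun _ => rfl }
  e_mul _ _ := rfl

theorem isPDGroup : IsPDGroup 3 (G3 ε δ) := (coord ε δ).isPDGroup

theorem isPDGroup_H : IsPDGroup 2 (H ε δ) := (coordH ε δ).isPDGroup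

/-- For `δ = 1` the subgroup `H` is `ℤ²`. -/
def equivH (ε : ℤˣ) : H ε 1 ≃* Multiplicative (ℤ × ℤ) where
  toFun a := Multiplicative.ofAdd (a.1.n, a.1.i)
  invFun p := ⟨⟨0, (Multiplicative.toAdd p).1, (Multiplicative.toAdd p).2⟩, rfl⟩
  left_inv a := by
    apply Subtype.ext
    ext
    · exact a.2.symm
    · rfl
    · rfl
  right_inv _ := rfl
  map_mul' a b := by
    change Multiplicative.ofAdd (a.1.n + (((1 : ℤˣ) ^ a.1.i : ℤˣ) : ℤ) * b.1.n, a.1.i + b.1.i) = _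
    simp
    rfl

/-- The decomposition `(m, n, i) = (m, 0, 0) (0, n, i)`. -/
lemma decomp (g : G3 ε δ) : g = ⟨g.m, 0, 0⟩ * ⟨0, g.n, g.i⟩ := by
  ext <;> simp

lemma decomp' (g : G3 ε δ) : (⟨g.m, 0, 0⟩ : G3 ε δ) = g * (⟨0, g.n, g.i⟩ : G3 ε δ)⁻¹ := by
  rw [eq_mul_inv_iff_mul_eq]
  exact (decomp g).symm

lemma x_pow (m : ℤ) (k : ℕ) : (⟨m, 0, 0⟩ : G3 ε δ) ^ k = ⟨k * m, 0, 0⟩ := by
  induction k with
  | zero => ext <;> simp
  | succ k ih =>
    rw [pow_succ, ih]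
    ext
    · simp; ring
    · simp
    · simp

lemma x_zpow (m : ℤ) (k : ℤ) : (⟨m, 0, 0⟩ : G3 ε δ) ^ k = ⟨k * m, 0, 0⟩ := by
  obtain ⟨k, rfl | rfl⟩ := k.eq_nat_or_neg
  · rw [zpow_natCast, x_pow]
  · rw [zpow_neg, zpow_natCast, x_pow]
    ext <;> simp

theorem normalizer_H : Subgroup.normalizer (H (-1) δ : Set (G3 (-1) δ)) = H (-1) δ := by
  refine le_antisymm (fun g hg => ?_) Subgroup.le_normalizer
  rw [Subgroup.mem_normalizer_iff] at hg
  have h1 := (hg ⟨0, 0, 1⟩).1 (by simp)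
  simp only [mem_H, mul_m, mul_i, inv_m] at h1
  rw [mem_H]
  have h2 : ((-1 : ℤˣ) ^ (g.i + 1)) = (-1) ^ g.i * (-1) := by rw [zpow_add]; simp
  rw [h2] at h1
  rcases Int.units_eq_one_or ((-1 : ℤˣ) ^ g.i) with h | h <;> rw [h] at h1 <;>
    simp at h1 <;> omega

end G3

/-- A criterion for not splitting over a subgroup. -/
theorem not_splitsOver {K : Type} [Group K] (H : Subgroup K)
    (h1 : ∀ A B : Subgroup K, H ≤ A → H ≤ B → A ≠ H → B ≠ H → A ⊓ B ≠ H)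
    (h2 : ∀ f : K →* Multiplicative ℤ, (∀ h ∈ H, f h = 1) → ∀ g, f g = 1) :
    ¬ SplitsOver H := by
  rintro (h | h)
  · obtain ⟨X, hX, φ, hinj, hsurj, e, he⟩ := h
    let A : Bool → Subgroup K := fun b =>
      (e.toMonoidHom.comp (Monoid.PushoutI.of (φ := φ) b)).range
    have hle : ∀ b, H ≤ A b := by
      intro b h hh
      refine ⟨φ b ⟨h, hh⟩, ?_⟩
      change e (Monoid.PushoutI.of b (φ b ⟨h, hh⟩)) = h
      rw [Monoid.PushoutI.of_apply_eq_base]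
      exact he ⟨h, hh⟩
    have hne : ∀ b, A b ≠ H := by
      intro b hb
      apply hsurj b
      intro x
      have hx : e (Monoid.PushoutI.of (φ := φ) b x) ∈ H := hb.le ⟨x, rfl⟩
      refine ⟨⟨_, hx⟩, ?_⟩
      apply Monoid.PushoutI.of_injective hinj b
      rw [Monoid.PushoutI.of_apply_eq_base]
      apply e.injective
      rw [he]
    apply h1 (A true) (A false) (hle true) (hle false) (hne true) (hne false)
    refine le_antisymm ?_ (le_inf (hle _) (hle _))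
    rintro g ⟨⟨x, hx⟩, ⟨y, hy⟩⟩
    have hx' : e (Monoid.PushoutI.of (φ := φ) true x) = g := hx
    have hy' : e (Monoid.PushoutI.of (φ := φ) false y) = g := hy
    have hmem : e.symm g ∈ (Monoid.PushoutI.of (φ := φ) true).range ⊓
        (Monoid.PushoutI.of (φ := φ) false).range :=
      ⟨⟨x, by rw [← hx', e.symm_apply_apply]⟩, ⟨y, by rw [← hy', e.symm_apply_apply]⟩⟩
    rw [Monoid.PushoutI.inf_of_range_eq_base_range hinj (by decide)] at hmem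
    obtain ⟨z, hz⟩ := hmem
    have : g = z := by
      rw [← he z, hz, e.apply_symm_apply]
    rw [this]
    exact z.2
  · obtain ⟨A, _, A₁, A₂, φ, e, rfl⟩ := h
    let f0 : HNNExtension A A₁ A₂ φ →* Multiplicative ℤ :=
      HNNExtension.lift 1 (Multiplicative.ofAdd 1) (by simp)
    have h3 := h2 (f0.comp e.symm.toMonoidHom) (by
      rintro _ ⟨a, ha, rfl⟩
      change f0 (e.symm (e (HNNExtension.of a))) = 1
      rw [e.symm_apply_apply]
      simp [f0]) (e HNNExtension.t)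
    have h4 : f0 HNNExtension.t = 1 := by
      have h5 : f0 (e.symm (e HNNExtension.t)) = 1 := h3
      rwa [e.symm_apply_apply] at h5
    simp [f0] at h4

namespace G3

variable {δ : ℤˣ}

theorem not_splitsOver_H (G₁ : Subgroup (G3 (-1) δ)) (hG : H (-1) δ ≤ G₁) :
    ¬ SplitsOver ((H (-1) δ).subgroupOf G₁) := by
  apply not_splitsOver
  · intro A B hA hB hAne hBne hAB
    -- every strictly larger subgroup contains a nonzero power of `x`
    have key : ∀ A : Subgroup G₁, (H (-1) δ).subgroupOf G₁ ≤ A →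
        A ≠ (H (-1) δ).subgroupOf G₁ → ∃ m : ℤ, m ≠ 0 ∧ ∃ h : (⟨m, 0, 0⟩ : G3 (-1) δ) ∈ G₁,
          (⟨⟨m, 0, 0⟩, h⟩ : G₁) ∈ A := by
      intro A hA hne
      obtain ⟨g, hg, hgn⟩ : ∃ g ∈ A, g ∉ (H (-1) δ).subgroupOf G₁ := by
        by_contra hcon
        push Not at hcon
        exact hne (le_antisymm hcon hA)
      rw [Subgroup.mem_subgroupOf] at hgn
      have hh : (⟨0, g.1.n, g.1.i⟩ : G3 (-1) δ) ∈ G₁ := hG (by simp)
      refine ⟨g.1.m, hgn, ?_⟩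
      have e1 : (⟨g.1.m, 0, 0⟩ : G3 (-1) δ) = (g * (⟨_, hh⟩ : G₁)⁻¹ : G₁) := decomp' g.1
      have hmem : (⟨g.1.m, 0, 0⟩ : G3 (-1) δ) ∈ G₁ := by
        rw [e1]; exact Subtype.mem _
      refine ⟨hmem, ?_⟩
      have e2 : (⟨⟨g.1.m, 0, 0⟩, hmem⟩ : G₁) = g * (⟨_, hh⟩ : G₁)⁻¹ := Subtype.ext e1
      rw [e2]
      exact A.mul_mem hg (A.inv_mem (hA (by rw [Subgroup.mem_subgroupOf]; simp)))
    obtain ⟨a, ha, ha', haA⟩ := key A hA hAne
    obtain ⟨b, hb, hb', hbB⟩ := key B hB hBne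
    have e3 : (⟨⟨a, 0, 0⟩, ha'⟩ : G₁) ^ b = (⟨⟨b, 0, 0⟩, hb'⟩ : G₁) ^ a := by
      apply Subtype.ext
      rw [Subgroup.coe_zpow, Subgroup.coe_zpow, x_zpow, x_zpow, mul_comm]
    have h5 : (⟨⟨a, 0, 0⟩, ha'⟩ : G₁) ^ b ∈ A ⊓ B :=
      ⟨A.zpow_mem haA b, by rw [e3]; exact B.zpow_mem hbB a⟩
    rw [hAB, Subgroup.mem_subgroupOf, Subgroup.coe_zpow, x_zpow] at h5
    simp [ha, hb] at h5
  · intro f hf g
    have hh : (⟨0, g.1.n, g.1.i⟩ : G3 (-1) δ) ∈ G₁ := hG (by simp)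
    have ht : (⟨0, 0, 1⟩ : G3 (-1) δ) ∈ G₁ := hG (by simp)
    have e1 : (⟨g.1.m, 0, 0⟩ : G3 (-1) δ) = (g * (⟨_, hh⟩ : G₁)⁻¹ : G₁) := decomp' g.1
    have hmem : (⟨g.1.m, 0, 0⟩ : G3 (-1) δ) ∈ G₁ := by
      rw [e1]; exact Subtype.mem _
    have e2 : g = (⟨⟨g.1.m, 0, 0⟩, hmem⟩ : G₁) * ⟨_, hh⟩ := Subtype.ext (decomp g.1)
    have e3 : (⟨_, ht⟩ : G₁) * ⟨⟨g.1.m, 0, 0⟩, hmem⟩ * (⟨_, ht⟩ : G₁)⁻¹ =
        (⟨⟨g.1.m, 0, 0⟩, hmem⟩ : G₁)⁻¹ := by
      apply Subtype.ext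
      ext
      · simp
      · simp
      · simp
    have hft : f ⟨_, ht⟩ = 1 := hf _ (by rw [Subgroup.mem_subgroupOf]; simp)
    have hfh : f ⟨_, hh⟩ = 1 := hf _ (by rw [Subgroup.mem_subgroupOf]; simp)
    have e4 := congrArg f e3
    rw [map_mul, map_mul, map_inv, map_inv, hft] at e4
    simp only [one_mul, inv_one, mul_one] at e4
    rw [e2, map_mul, hfh, mul_one]
    generalize f ⟨⟨g.1.m, 0, 0⟩, hmem⟩ = z at e4 ⊢
    have e5 : Multiplicative.toAdd z = -Multiplicative.toAdd z := congrArg Multiplicative.toAdd e4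
    have e6 : Multiplicative.toAdd z = 0 := by omega
    exact Multiplicative.toAdd.injective e6

end G3

end Pool.Agent.Helper7.PD
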