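import Pool.Agent.Helper7.PD.Coh
import Pool.Agent.Helper7.PD.Defs

set_option autoImplicit false
set_option linter.unusedSectionVars false

open CategoryTheory Limits

namespace Pool.Agent.Helper7.PD

variable {k G : Type} [CommRing k] [Group G]

lemma isTypeFP_of_resData (R : ResData k G) (N : ℕ) (hN : ∀ i, N ≤ i → IsEmpty (R.α i)) :
    IsTypeFP k G := by
  refine ⟨R.projRes, fun i => ?_, N, fun i hi => ?_⟩
  · change Module.Finite (MonoidAlgebra k G) (Representation.free k G (R.α i)).asModule
    exact Module.Finite.of_basis (Representation.freeAsModuleBasis k G (R.α i))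
  · have := hN i hi
    change IsZero (Rep.free k G (R.α i))
    rw [Rep.isZero_iff]
    change Subsingleton (R.α i →₀ MonoidAlgebra k G)
    infer_instance

/-- homology of a short complex of modules from an explicit surjection. -/
lemma homology_equiv_of_surjective (S : ShortComplex (ModuleCat.{0} k)) {B : Type}
    [AddCommGroup B] [Module k B] (ψ : S.X₂ →ₗ[k] B) (hψ : Function.Surjective ψ)
    (hg : ∀ x, S.g x = 0) (hker : ∀ x, ψ x = 0 ↔ ∃ y, S.f y = x) :
    Nonempty (S.homology ≃ₗ[k] B) := by
  refine ⟨(S.moduleCatHomologyIso).toLinearEquiv ≪≫ₗ ?_⟩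
  change (LinearMap.ker S.g.hom ⧸ LinearMap.range S.moduleCatToCycles) ≃ₗ[k] B
  let ψ' : LinearMap.ker S.g.hom →ₗ[k] B := ψ ∘ₗ (LinearMap.ker S.g.hom).subtype
  have h1 : Function.Surjective ψ' := by
    intro b
    obtain ⟨x, hx⟩ := hψ b
    exact ⟨⟨x, hg x⟩, hx⟩
  have h2 : LinearMap.range S.moduleCatToCycles = LinearMap.ker ψ' := by
    ext x
    rw [LinearMap.mem_range, LinearMap.mem_ker]
    constructor
    · rintro ⟨y, rfl⟩
      exact (hker _).2 ⟨y, rfl⟩
    · intro hx
      obtain ⟨y, hy⟩ := (hker _).1 hx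
      exact ⟨y, Subtype.ext hy⟩
  exact (Submodule.quotEquivOfEq _ _ h2) ≪≫ₗ ψ'.quotKerEquivOfSurjective h1

namespace ResData

variable (R : ResData k G) (A : Rep.{0} k G)

lemma subsingleton_coh_zero (h : ∀ v : R.α 0 → A, dualD A (R.D 0) v = 0 → v = 0) :
    Subsingleton (groupCohomology A 0) := by
  have h1 : IsZero (groupCohomology A 0) := by
    refine IsZero.of_iso ?_ (R.cohIso A 0)
    rw [← HomologicalComplex.exactAt_iff_isZero_homology,
      HomologicalComplex.exactAt_iff' _ 0 0 1 (by simp) (by simp)]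
    rw [ShortComplex.moduleCat_exact_iff]
    intro v hv
    refine ⟨0, ?_⟩
    rw [map_zero]
    symm
    apply h
    have hd := R.cochain_d A 0
    have : (R.cochain A).d 0 1 v = 0 := hv
    rw [hd] at this
    exact this
  exact ModuleCat.subsingleton_of_isZero h1

lemma subsingleton_coh_succ (i : ℕ)
    (h : ∀ v : R.α (i + 1) → A, dualD A (R.D (i + 1)) v = 0 → ∃ w, dualD A (R.D i) w = v) :
    Subsingleton (groupCohomology A (i + 1)) := by
  have h1 : IsZero (groupCohomology A (i + 1)) := by
    refine IsZero.of_iso ?_ (R.cohIso A (i + 1))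
    rw [← HomologicalComplex.exactAt_iff_isZero_homology,
      HomologicalComplex.exactAt_iff' _ i (i + 1) (i + 2) (by simp) (by simp)]
    rw [ShortComplex.moduleCat_exact_iff]
    intro v hv
    have hv' : (R.cochain A).d (i + 1) (i + 2) v = 0 := hv
    rw [R.cochain_d A (i + 1)] at hv'
    obtain ⟨w, hw⟩ := h v hv'
    refine ⟨w, ?_⟩
    change (R.cochain A).d i (i + 1) w = v
    rw [R.cochain_d A i]
    exact hw
  exact ModuleCat.subsingleton_of_isZero h1

lemma nonempty_coh_equiv (i : ℕ) {B : Type} [AddCommGroup B] [Module k B]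
    (ψ : (R.α (i + 1) → A) →ₗ[k] B) (hψ : Function.Surjective ψ)
    (hempty : IsEmpty (R.α (i + 2)))
    (hker : ∀ x, ψ x = 0 ↔ ∃ y, dualD A (R.D i) y = x) :
    Nonempty (groupCohomology A (i + 1) ≃ₗ[k] B) := by
  have e1 : groupCohomology A (i + 1) ≅ ((R.cochain A).sc' i (i + 1) (i + 2)).homology :=
    R.cohIso A (i + 1) ≪≫ ShortComplex.homologyMapIso
      ((R.cochain A).isoSc' i (i + 1) (i + 2) (by simp) (by simp))
  obtain ⟨e2⟩ := homology_equiv_of_surjective ((R.cochain A).sc' i (i + 1) (i + 2)) (B := B) ψ hψ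
    (fun x => by
      change (R.cochain A).d (i + 1) (i + 2) x = 0
      rw [R.cochain_d A (i + 1)]
      funext a
      exact (hempty.false a).elim)
    (fun x => by
      refine (hker x).trans ?_
      change _ ↔ ∃ y, (R.cochain A).d i (i + 1) y = x
      rw [R.cochain_d A i]
      rfl)
  exact ⟨e1.toLinearEquiv ≪≫ₗ e2⟩

end ResData

lemma dualD_leftRegular {α β : Type} [Fintype β] (D : Matrix α β (MonoidAlgebra k G))
    (v : β → MonoidAlgebra k G) :
    dualD (Rep.leftRegular k G) D v = Matrix.mulVec D v := by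
  funext a
  rw [dualD_apply]
  simp only [Matrix.mulVec, dotProduct]
  refine Finset.sum_congr rfl fun b _ => ?_
  exact Representation.asAlgebraHom_ofMulAction_smul_eq_mul _ _

end Pool.Agent.Helper7.PD
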