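import Pool.Agent.Helper7.PD.Group3

set_option autoImplicit false
set_option linter.unusedSectionVars false

open CategoryTheory Limits

namespace Pool.Agent.Helper7.PD

variable {k G : Type} [CommRing k] [Group G]

lemma asAlgebraHom_trivial (r : MonoidAlgebra k G) (x : k) :
    (Rep.trivial k G k).ρ.asAlgebraHom r x = aug k G r * x := by
  induction r using MonoidAlgebra.induction_linear with
  | zero => simp
  | add a b ha hb => rw [map_add, LinearMap.add_apply, ha, hb, map_add, add_mul]
  | single g c =>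
    rw [Representation.asAlgebraHom_single, LinearMap.smul_apply, aug_single]
    rfl

lemma trivial_coh_equiv (R : ResData k G) (n : ℕ) [Unique (R.α (n + 1))]
    (hempty : IsEmpty (R.α (n + 2))) (hD : ∀ a b, aug k G (R.D n a b) = 0) :
    Nonempty (groupCohomology (Rep.trivial k G k) (n + 1) ≃ₗ[k] k) := by
  refine R.nonempty_coh_equiv (Rep.trivial k G k) n
    (LinearMap.proj (default : R.α (n + 1)) : (R.α (n + 1) → k) →ₗ[k] k) ?_ hempty ?_
  · intro b
    exact ⟨fun _ => b, rfl⟩
  · intro x
    constructor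
    · intro hx
      refine ⟨0, ?_⟩
      rw [map_zero]
      funext a
      have : a = default := Subsingleton.elim _ _
      subst this
      exact hx.symm
    · rintro ⟨y, rfl⟩
      change dualD (Rep.trivial k G k) (R.D n) y default = 0
      rw [dualD_apply]
      refine Finset.sum_eq_zero fun b _ => ?_
      rw [asAlgebraHom_trivial, hD, zero_mul]

lemma trivial_coh_equiv_int {G : Type} [Group G] (R : ResData ℤ G) (n : ℕ)
    [Unique (R.α (n + 1))]
    (hempty : IsEmpty (R.α (n + 2))) (hD : ∀ a b, aug ℤ G (R.D n a b) = 0) :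
    Nonempty (groupCohomology (Rep.trivial ℤ G ℤ) (n + 1) ≃+ ℤ) := by
  obtain ⟨e⟩ := trivial_coh_equiv R n hempty hD
  exact ⟨e.toAddEquiv⟩

/-- The group `ℤ² ⋊_{-1} ℤ` is orientable. -/
theorem G3.orientable : Nonempty
    (groupCohomology (Rep.trivial ℤ (G3 (-1) (-1)) ℤ) 3 ≃+ ℤ) := by
  let C := G3.coord (-1) (-1)
  letI : Unique (C.resData.α (2 + 1)) := inferInstanceAs (Unique (Fin 1))
  refine trivial_coh_equiv_int C.resData 2 ⟨fun a => Fin.elim0 (show Fin 0 from a)⟩ ?_
  intro a b
  change aug ℤ _ (C.D2 a b) = 0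
  change Fin 1 at a
  change Fin 3 at b
  fin_cases a
  fin_cases b
  · simp [Coord3.D2, Coord3.t, Coord3.c, Coord3.d, MonoidAlgebra.single_mul_single]
  · simp [Coord3.D2, C.aug_Y]
  · simp [Coord3.D2, C.aug_X]

end Pool.Agent.Helper7.PD
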