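import Mathlib

set_option autoImplicit false

namespace Pool.Agent.Helper7.PD

variable {k : Type} [CommRing k]

section shift

variable {P Y : Type} (σ : P ≃ Y × ℤ) (u : kˣ)

/-- The shift permutation of `P ≃ Y × ℤ` in the `ℤ`-direction. -/
def shiftPerm : P ≃ P :=
  (σ.trans ((Equiv.refl Y).prodCongr (Equiv.addRight (1 : ℤ)))).trans σ.symm

lemma σ_shiftPerm (p : P) : σ (shiftPerm σ p) = ((σ p).1, (σ p).2 + 1) := by
  simp [shiftPerm, Prod.map]

/-- The twisted shift operator. -/
noncomputable def opT : (P →₀ k) →ₗ[k] (P →₀ k) :=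
  (u : k) • Finsupp.lmapDomain k k (shiftPerm σ)

/-- The twisted sum over the `ℤ`-direction. -/
noncomputable def opS : (P →₀ k) →ₗ[k] (Y →₀ k) :=
  Finsupp.linearCombination k
    (fun p => Finsupp.single (σ p).1 (((u ^ (-(σ p).2) : kˣ) : k)))

lemma opT_single (p : P) (c : k) :
    opT σ u (Finsupp.single p c) = Finsupp.single (shiftPerm σ p) ((u : k) * c) := by
  simp [opT]

lemma opS_single (p : P) (c : k) :
    opS σ u (Finsupp.single p c) =
      Finsupp.single (σ p).1 (c * (((u ^ (-(σ p).2) : kˣ) : k))) := by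
  simp [opS]

lemma opT_apply (f : P →₀ k) (p : P) :
    opT σ u f (shiftPerm σ p) = (u : k) * f p := by
  simp only [opT, LinearMap.smul_apply, Finsupp.smul_apply, smul_eq_mul, Finsupp.lmapDomain_apply]
  rw [Finsupp.mapDomain_apply (shiftPerm σ).injective]

lemma opS_opT (f : P →₀ k) : opS σ u (opT σ u f) = opS σ u f := by
  induction f using Finsupp.induction_linear with
  | zero => simp
  | add x y hx hy => simp [map_add, hx, hy]
  | single p c =>
    rw [opT_single, opS_single, opS_single, σ_shiftPerm]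
    congr 1
    have : (u : k) * c * ((u ^ (-((σ p).2 + 1)) : kˣ) : k)
        = c * (((u * u ^ (-((σ p).2 + 1)) : kˣ)) : k) := by
      push_cast; ring
    rw [this]
    congr 2
    rw [← zpow_one_add]
    congr 1
    ring

lemma opT_inj (f : P →₀ k) (h : opT σ u f = f) : f = 0 := by
  classical
  by_contra hf
  obtain ⟨p, hp, hmax⟩ := Finset.exists_max_image f.support (fun p => (σ p).2)
    (Finsupp.support_nonempty_iff.2 hf)
  have h1 : f (shiftPerm σ p) = (u : k) * f p := by
    rw [← opT_apply, h]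
  have h2 : f (shiftPerm σ p) ≠ 0 := by
    rw [h1]
    intro h3
    exact (Finsupp.mem_support_iff.1 hp) ((Units.mul_right_eq_zero u).1 h3)
  have h3 := hmax _ (Finsupp.mem_support_iff.2 h2)
  rw [σ_shiftPerm] at h3
  simp at h3

/-- inclusion at level zero. -/
noncomputable def opI : (Y →₀ k) →ₗ[k] (P →₀ k) :=
  Finsupp.lmapDomain k k (fun y => σ.symm (y, 0))

lemma opI_single (y : Y) (c : k) :
    opI (k := k) σ (Finsupp.single y c) = Finsupp.single (σ.symm (y, 0)) c := by
  simp [opI]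

lemma opS_opI (f : Y →₀ k) : opS σ u (opI σ f) = f := by
  induction f using Finsupp.induction_linear with
  | zero => simp
  | add x y hx hy => simp [map_add, hx, hy]
  | single p c => rw [opI_single, opS_single]; simp

lemma opS_surj : Function.Surjective (opS σ u) := fun f => ⟨_, opS_opI σ u f⟩

lemma exists_single (y : Y) (n : ℤ) (c : k) :
    ∃ g, opT σ u g - g = Finsupp.single (σ.symm (y, n)) c -
      Finsupp.single (σ.symm (y, 0)) (c * ((u ^ (-n) : kˣ) : k)) := by
  induction n using Int.induction_on generalizing c with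
  | zero => exact ⟨0, by simp⟩
  | succ i ih =>
    obtain ⟨g, hg⟩ := ih ((u⁻¹ : kˣ) * c)
    refine ⟨g + Finsupp.single (σ.symm (y, i)) ((u⁻¹ : kˣ) * c), ?_⟩
    rw [map_add, opT_single]
    have e1 : shiftPerm σ (σ.symm (y, i)) = σ.symm (y, i + 1) := by
      simp [shiftPerm, Prod.map]
    have e2 : (u : k) * ((u⁻¹ : kˣ) * c) = c := by
      rw [← mul_assoc, Units.mul_inv, one_mul]
    have e3 : ((u⁻¹ : kˣ) : k) * c * ((u ^ (-(i : ℤ)) : kˣ) : k)
        = c * ((u ^ (-((i : ℤ) + 1)) : kˣ) : k) := by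
      have : u ^ (-((i : ℤ) + 1)) = u⁻¹ * u ^ (-(i : ℤ)) := by
        rw [← zpow_neg_one, ← zpow_add]; congr 1; ring
      rw [this]; push_cast; ring
    rw [e1, e2, ← e3]
    have : opT σ u g + Finsupp.single (σ.symm (y, (i : ℤ) + 1)) c -
      (g + Finsupp.single (σ.symm (y, (i : ℤ))) (((u⁻¹ : kˣ) : k) * c)) =
      (opT σ u g - g) + Finsupp.single (σ.symm (y, (i : ℤ) + 1)) c -
      Finsupp.single (σ.symm (y, (i : ℤ))) (((u⁻¹ : kˣ) : k) * c) := by abel
    rw [this, hg]
    abel
  | pred i ih =>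
    obtain ⟨g, hg⟩ := ih ((u : k) * c)
    refine ⟨g - Finsupp.single (σ.symm (y, -i - 1)) c, ?_⟩
    rw [map_sub, opT_single]
    have e1 : shiftPerm σ (σ.symm (y, -(i : ℤ) - 1)) = σ.symm (y, -(i : ℤ)) := by
      simp [shiftPerm, Prod.map]
    have e3 : (u : k) * c * ((u ^ (-(-(i : ℤ))) : kˣ) : k)
        = c * ((u ^ (-(-(i : ℤ) - 1)) : kˣ) : k) := by
      have : u ^ (-(-(i : ℤ) - 1)) = u * u ^ (-(-(i : ℤ))) := by
        rw [← zpow_one_add]; congr 1; ring
      rw [this]; push_cast; ring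
    rw [e1, ← e3]
    have : opT σ u g - Finsupp.single (σ.symm (y, -(i : ℤ))) ((u : k) * c) -
      (g - Finsupp.single (σ.symm (y, -(i : ℤ) - 1)) c) =
      (opT σ u g - g) - Finsupp.single (σ.symm (y, -(i : ℤ))) ((u : k) * c) +
      Finsupp.single (σ.symm (y, -(i : ℤ) - 1)) c := by abel
    rw [this, hg]
    abel

lemma exists_sub_opI (f : P →₀ k) : ∃ g, opT σ u g - g = f - opI σ (opS σ u f) := by
  induction f using Finsupp.induction_linear with
  | zero => exact ⟨0, by simp⟩
  | add x y hx hy =>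
    obtain ⟨a, ha⟩ := hx
    obtain ⟨b, hb⟩ := hy
    refine ⟨a + b, ?_⟩
    rw [map_add, map_add, map_add]
    have : opT σ u a + opT σ u b - (a + b) = (opT σ u a - a) + (opT σ u b - b) := by abel
    rw [this, ha, hb]
    abel
  | single p c =>
    obtain ⟨g, hg⟩ := exists_single σ u (σ p).1 (σ p).2 c
    refine ⟨g, ?_⟩
    rw [hg, opS_single, opI_single]
    simp

lemma exists_of_opS (f : P →₀ k) (h : opS σ u f = 0) : ∃ g, opT σ u g - g = f := by
  obtain ⟨g, hg⟩ := exists_sub_opI σ u f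
  refine ⟨g, ?_⟩
  rw [hg, h]
  simp

end shift

end Pool.Agent.Helper7.PD
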