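import Pool.Agent.Helper7.PD.Shift
import Pool.Agent.Helper7.PD.Main

set_option autoImplicit false
set_option linter.unusedSectionVars false

open CategoryTheory Limits

namespace Pool.Agent.Helper7.PD

variable {k : Type} [CommRing k]

section step

variable {A : Type} [AddCommGroup A] [Module k A] {P Y : Type} (σ : P ≃ Y × ℤ) (u : kˣ)
  (p : A →ₗ[k] (P →₀ k)) (Z : A → A)

lemma step_inj (hZ : ∀ a, p (Z a) = opT σ u (p a) - p a) (a : A) (h : p (Z a) = 0) : p a = 0 := by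
  rw [hZ, sub_eq_zero] at h
  exact opT_inj σ u _ h

lemma step_ker (hp : Function.Surjective p) (hZ : ∀ a, p (Z a) = opT σ u (p a) - p a)
    (a : A) (h : opS σ u (p a) = 0) : ∃ b, p (a - Z b) = 0 := by
  obtain ⟨g, hg⟩ := exists_of_opS σ u _ h
  obtain ⟨b, rfl⟩ := hp g
  refine ⟨b, ?_⟩
  rw [map_sub, hZ, hg, sub_self]

lemma step_zero (hZ : ∀ a, p (Z a) = opT σ u (p a) - p a) (a : A) :
    opS σ u (p (Z a)) = 0 := by
  rw [hZ, map_sub, opS_opT, sub_self]

end step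

/-- General criterion. -/
theorem pd_of_resData {G : Type} [Group G] (R : ResData k G) (n : ℕ)
    (hempty : ∀ i, n + 1 < i → IsEmpty (R.α i))
    (h0 : ∀ v : R.α 0 → MonoidAlgebra k G, Matrix.mulVec (R.D 0) v = 0 → v = 0)
    (hs : ∀ i, i ≠ n → ∀ v : R.α (i + 1) → MonoidAlgebra k G,
      Matrix.mulVec (R.D (i + 1)) v = 0 → ∃ w, Matrix.mulVec (R.D i) w = v)
    (ψ : (R.α (n + 1) → MonoidAlgebra k G) →ₗ[k] k) (hψ : Function.Surjective ψ)
    (hker : ∀ x, ψ x = 0 ↔ ∃ y, Matrix.mulVec (R.D n) y = x) :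
    IsTypeFP k G ∧
    (∀ i : ℕ, i ≠ n + 1 → Subsingleton (groupCohomology (Rep.leftRegular k G) i)) ∧
    Nonempty (groupCohomology (Rep.leftRegular k G) (n + 1) ≃ₗ[k] k) := by
  refine ⟨isTypeFP_of_resData R (n + 2) (fun i hi => hempty i (by omega)), ?_, ?_⟩
  · intro i hi
    cases i with
    | zero =>
      refine R.subsingleton_coh_zero _ fun v hv => h0 v ?_
      rw [← dualD_leftRegular]
      exact hv
    | succ i =>
      refine R.subsingleton_coh_succ _ i fun v hv => ?_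
      have hv' : Matrix.mulVec (R.D (i + 1)) v = 0 := by
        rw [← dualD_leftRegular]; exact hv
      obtain ⟨w, hw⟩ := hs i (by omega) v hv'
      exact ⟨w, by rw [← hw]; exact dualD_leftRegular _ _⟩
  · refine R.nonempty_coh_equiv _ n ψ hψ (hempty _ (by omega)) fun x => ?_
    refine (hker x).trans ?_
    constructor
    · rintro ⟨y, rfl⟩
      exact ⟨y, dualD_leftRegular _ _⟩
    · rintro ⟨y, hy⟩
      exact ⟨y, by rw [← hy]; exact (dualD_leftRegular _ _).symm⟩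

theorem isPDGroup_of_resData {G : Type} [Group G] (R : ResData ℤ G) (n : ℕ)
    (hempty : ∀ i, n + 1 < i → IsEmpty (R.α i))
    (h0 : ∀ v : R.α 0 → MonoidAlgebra ℤ G, Matrix.mulVec (R.D 0) v = 0 → v = 0)
    (hs : ∀ i, i ≠ n → ∀ v : R.α (i + 1) → MonoidAlgebra ℤ G,
      Matrix.mulVec (R.D (i + 1)) v = 0 → ∃ w, Matrix.mulVec (R.D i) w = v)
    (ψ : (R.α (n + 1) → MonoidAlgebra ℤ G) →ₗ[ℤ] ℤ) (hψ : Function.Surjective ψ)
    (hker : ∀ x, ψ x = 0 ↔ ∃ y, Matrix.mulVec (R.D n) y = x) :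
    IsPDGroup (n + 1) G := by
  obtain ⟨h1, h2, ⟨h3⟩⟩ := pd_of_resData R n hempty h0 hs ψ hψ hker
  exact ⟨h1, h2, ⟨h3.toAddEquiv⟩⟩

end Pool.Agent.Helper7.PD
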